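import Pool.Agent.HopfFree.StatementFree
import Pool.Agent.HopfTw.CovStd
import Pool.Agent.HopfTw.FinIdx
import Pool.Agent.HopfTw.MainE
import Pool.Agent.HopfEnd.CoverEx

/-!
# Coverings of orbit spaces one of whose powers is standard
-/

set_option autoImplicit false

open scoped ContDiff Topology Manifold
open Set Filter Metric

namespace Pool.Agent.HopfFree

open Pool.Agent.HopfCov
open Pool.Agent.HopfFin hiding pr
open Pool.Agent.HopfTw
open Pool.Agent.HopfCov.Smooth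

theorem Off_tauL (r : E4 ≃ₗᵢ[ℝ] E4) : Off (tauL r) := ⟨tauL r, Trap_tauL r, Cj.refl _⟩

/-- powers of the model contraction -/
theorem Cj_tau_pow {m : ℕ} (hm : 0 < m) : Cj ((tau : E4 ≃ₜ E4) ^ m) tau :=
  std_of_Off (PD_tau.pow m) ((Contr_tauL _).pow hm) (Off_of_pow (Off_tauL _) hm)
    (Ext_pow Ext_tau m)

/-- even powers of the twisted model contraction -/
theorem Cj_r3_even {m : ℕ} (hm : 0 < m) (he : Even m) : Cj (tauL r3 ^ m) tau :=
  std_of_Off (PD_tauL_r3.pow_even he) ((Contr_tauL _).pow hm) (Off_of_pow (Off_tauL _) hm)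
    (Ext_of_chi_pow (d := 1) PD_tauL_r3 (by rw [pow_one, chi_tauL]) (by simpa using he.two_dvd))

/-- odd powers of the twisted model contraction -/
theorem Cj_r3_odd {m : ℕ} (ho : Odd m) : Cj (tauL r3 ^ m) (tauL r3) := by
  have h1 : PD (-1) (tauL r3 ^ m) := PD_tauL_r3.pow_odd ho
  exact std_of_Off_neg h1 ((Contr_tauL _).pow ho.pos) (Off_of_pow (Off_tauL _) ho.pos)
    (by rw [chi_pow PD_tauL_r3 ho h1, chi_tauL, one_pow])

/-- coverings of an orbit space of `G` if `G ^ n` is standard -/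
theorem coverStd_of {M : Mfd4} (hM : T2Space M ∧ CompactSpace M) {p : V4 → M.carrier}
    {g : V4 ≃ₜ V4} {G : E4 ≃ₜ E4} (hp : OrbitMap g p) (hG : Extends G g) {n : ℕ}
    (h : Cj (G ^ n) (tau ^ n)) : CoverStd n M := by
  obtain ⟨a1, a2⟩ := hM
  have a1' : T2Space M.carrier := a1
  have a2' : CompactSpace M.carrier := a2
  intro m N q hnm hm hN hq
  have c1 := hN.compact
  have c2 := hN.hausdorff
  have c3 : ConnectedSpace N.carrier := hN.connected
  obtain ⟨p', i1, -⟩ := cover_data hp hm hq.old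
  obtain ⟨k, rfl⟩ := hnm
  have h1 : Cj (G ^ (n * k)) (tau ^ (n * k)) := by
    rw [pow_mul, pow_mul]
    exact h.pow k
  exact std_of_Cj ⟨c2, c1⟩ i1 (hG.pow _) (h1.trans (Cj_tau_pow hm))

/-- the same for the twisted product -/
theorem coverStdT_of {M : Mfd4} (hM : T2Space M ∧ CompactSpace M) {p : V4 → M.carrier}
    {g : V4 ≃ₜ V4} {G : E4 ≃ₜ E4} (hp : OrbitMap g p) (hG : Extends G g) {n : ℕ}
    (h : Cj (G ^ n) (tauL r3 ^ n)) : CoverStdT n M := by
  obtain ⟨a1, a2⟩ := hM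
  have a1' : T2Space M.carrier := a1
  have a2' : CompactSpace M.carrier := a2
  intro m N q hnm hm hN hq
  have c1 := hN.compact
  have c2 := hN.hausdorff
  have c3 : ConnectedSpace N.carrier := hN.connected
  obtain ⟨p', i1, -⟩ := cover_data hp hm hq.old
  obtain ⟨k, rfl⟩ := hnm
  have h1 : Cj (G ^ (n * k)) (tauL r3 ^ (n * k)) := by
    rw [pow_mul, pow_mul]
    exact h.pow k
  exact ⟨fun he => std_of_Cj ⟨c2, c1⟩ i1 (hG.pow _) (h1.trans (Cj_r3_even hm he)),
    fun ho => twisted_of_Cj ⟨c2, c1⟩ i1 (hG.pow _) (h1.trans (Cj_r3_odd ho))⟩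

/-- the orbit space of a power as a covering -/
theorem exists_power {M : Mfd4} {p : Punctured → M} {G : Homeo4} (h : Orbit M p G) {m : ℕ}
    (hm : 0 < m) : ∃ (N : Mfd4) (q : N → M), Closed N ∧ Cover m q := by
  obtain ⟨G', hG'⟩ : ∃ G' : E4 ≃ₜ E4, G' = (show E4 ≃ₜ E4 from G) := ⟨_, rfl⟩
  have h0 := orbit_eq.1 h
  rw [← hG'] at h0
  obtain ⟨a1, a2, h8, h7, h9, g, h6, h5⟩ := h0.data
  have a1' : T2Space M.carrier := a1
  have a2' : CompactSpace M.carrier := a2
  have ht : Trap (G' ^ m) := fun x hx => h7.pow_lt hm hx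
  have hcm : Contr (G' ^ m) := h9.pow hm
  have hE : Extends (G' ^ m) (g ^ m) := h6.pow m
  have hPD : PD 1 (G' ^ m) ∨ PD (-1) (G' ^ m) := by
    rcases h8 with h8 | h8
    · exact Or.inl (h8.pow m)
    · rcases Nat.even_or_odd m with h10 | h10
      · exact Or.inl (h8.pow_even h10)
      · exact Or.inr (h8.pow_odd h10)
  rcases hPD with hPD | hPD
  · obtain ⟨g', C, p', e1, e2, e3⟩ := exists_orbit_space hPD ht hcm
    obtain rfl : g' = g ^ m := e1.eq_of hE
    let N : Mfd4 := ⟨Circle × sphere (0 : E4) 1, inferInstance, C, e2⟩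
    have b1 : T2Space N.carrier := inferInstanceAs (T2Space (Circle × sphere (0 : E4) 1))
    have b2 : CompactSpace N.carrier :=
      inferInstanceAs (CompactSpace (Circle × sphere (0 : E4) 1))
    have e3' : OrbitMap (g ^ m) (M := N.carrier) p' := e3
    obtain ⟨q, hq, -⟩ :=
      Pool.Agent.HopfEnd.cover_of_orbit (M := M) (N := N) a1' b1 b2 h5 h6 h9 hm e3'
    exact ⟨N, q, ⟨b2, b1, e3'.connected⟩, hq⟩
  · obtain ⟨N, p', hN⟩ := exists_orbit_of hPD ht hcm
    obtain ⟨b1, b2, -, -, -, g', hg', hp'⟩ := hN.data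
    obtain rfl : g' = g ^ m := hg'.eq_of hE
    obtain ⟨q, hq, -⟩ :=
      Pool.Agent.HopfEnd.cover_of_orbit (M := M) (N := N) a1' b1 b2 h5 h6 h9 hm hp'
    exact ⟨N, q, hN.closed, hq⟩

end Pool.Agent.HopfFree
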