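import Pool.Agent.HopfFree.NormN
import Pool.Agent.HopfTw.Good

/-!
# Even powers of a good orientation reversing generator
-/

set_option autoImplicit false

open scoped ContDiff Topology
open Set Filter Metric

namespace Pool.Agent.HopfFree

open Pool.Agent.HopfCov hiding pr
open Pool.Agent.HopfFin
open Pool.Agent.HopfTw

/-- even powers of a generator for `r` are generators for the identity -/
theorem GoodR.pow_two' {r : E4 ≃ₗᵢ[ℝ] E4} (hr : Rf r) {G T : E4 ≃ₜ E4} (hT : GoodR r G T)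
    {m : ℕ} (hev : Even m) (hm : 0 < m) : ∃ T' : E4 ≃ₜ E4, Good (G ^ m) T' e0 := by
  obtain ⟨μ, hμ, hμx, hμt⟩ := pow_mk m hm
  have he0 : (e0 : E4) ≠ 0 := fun h => by
    have h1 := norm_e0
    rw [h, norm_zero] at h1
    exact zero_ne_one h1
  have hTm : ∀ k : ℕ, T * G ^ k = tauL r ^ k * T := by
    intro k
    induction k with
    | zero => rw [pow_zero, pow_zero, mul_one, one_mul]
    | succ k ih => rw [pow_succ, pow_succ, ← mul_assoc, ih, mul_assoc, hT.conj, mul_assoc]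
  refine ⟨μ⁻¹ * T, ?_, ?_, ?_⟩
  · rw [mul_apply', hT.zero]
    exact hμ.inv.1
  · have h1 : tau * μ⁻¹ = μ⁻¹ * tau ^ m := by
      rw [eq_inv_mul_iff_mul_eq, ← mul_assoc, hμt, mul_assoc, mul_inv_cancel, mul_one]
    rw [mul_assoc, hTm, tauL_even hr hev, ← mul_assoc, ← h1, mul_assoc]
  · intro t ht
    have h1 : ((μ⁻¹ * T)⁻¹ : E4 ≃ₜ E4) (t • e0) =
        (T⁻¹ : E4 ≃ₜ E4) ((t ^ (m - 1) * t) • e0) := by
      rw [mul_inv_rev, inv_inv, mul_apply', hμx, norm_smul, norm_e0, mul_one, Real.norm_eq_abs,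
        abs_of_pos ht, smul_smul]
    rw [h1]
    have h2 : Reg T ((T⁻¹ : E4 ≃ₜ E4) ((t ^ (m - 1) * t) • e0)) := hT.reg _ (by positivity)
    have h3 : Reg (μ⁻¹ : E4 ≃ₜ E4) (T ((T⁻¹ : E4 ≃ₜ E4) ((t ^ (m - 1) * t) • e0))) := by
      rw [apply_inv_self']
      exact hμ.inv.reg (smul_ne_zero (by positivity) he0)
    exact Reg.comp (f := T) (g := (μ⁻¹ : E4 ≃ₜ E4)) h3 h2

end Pool.Agent.HopfFree
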