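import Pool.Agent.HopfTw.Norm
import Pool.Agent.HopfTw.Extend

/-!
# The normal form with a `K` commuting with a power of the contraction

The proof of `normal_form_r` in `HopfTw/Norm.lean`, with `extend_germ_r` instead of `extend_germ`:
`K₁ = μ (ψ⁻¹ ψ₀) μ⁻¹` commutes with `μ (tauL r) μ⁻¹ = (tauL r) ^ m`.
-/

set_option autoImplicit false

open scoped ContDiff Topology
open Set Filter Metric

namespace Pool.Agent.HopfFree

open Pool.Agent.HopfCov hiding pr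
open Pool.Agent.HopfFin
open Pool.Agent.HopfTw

/-- the radial powers -/
theorem pow_mk_r {r : E4 ≃ₗᵢ[ℝ] E4} (hr : Rf r) {m : ℕ} (hm : 0 < m)
    (hrm : linH r ^ m = linH r) : ∃ μ : E4 ≃ₜ E4, Sm μ ∧ (∀ x, μ x = ‖x‖ ^ (m - 1) • x) ∧
    μ * tauL r = tauL r ^ m * μ := by
  obtain ⟨μ, hμ, hμx, hμt⟩ := pow_mk m hm
  refine ⟨μ, hμ, hμx, ?_⟩
  have h1 : μ * linH r = linH r * μ := Homeomorph.ext fun x => by
    rw [mul_apply', mul_apply', linH_apply, linH_apply, hμx, hμx, map_smul, r.norm_map]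
  have h2 : tauL r = tau * linH r := Homeomorph.ext fun x => by
    rw [mul_apply', linH_apply, tauL_apply, tau_apply]
  have h3 : Commute (tau : E4 ≃ₜ E4) (linH r) := Homeomorph.ext fun x => by
    rw [mul_apply', mul_apply', linH_apply, linH_apply, tau_apply, tau_apply, map_smul]
  have h4 : tauL r ^ m = tau ^ m * linH r := by rw [h2, h3.mul_pow, hrm]
  rw [h4, h2]
  calc μ * (tau * linH r) = (μ * tau) * linH r := (mul_assoc _ _ _).symm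
    _ = tau ^ m * (μ * linH r) := by rw [hμt, mul_assoc]
    _ = tau ^ m * linH r * μ := by rw [h1, mul_assoc]

/-- **the normal form** -/
theorem normal_form_n {r : E4 ≃ₗᵢ[ℝ] E4} (hr : Rf r) {G T φ : E4 ≃ₜ E4} (hT : GoodR r G T)
    {m : ℕ} (hm : 0 < m) (hrm : linH r ^ m = linH r) (hφ : Sm φ) (hφm : φ * G ^ m = tauL r * φ) :
    ∃ κ K : E4 ≃ₜ E4, Sm κ ∧ K 0 = 0 ∧ Supp K (Cone 1) ∧
      κ * G * κ⁻¹ = K * tauL r * K⁻¹ ∧ K * tauL r ^ m = tauL r ^ m * K := by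
  obtain ⟨μ, hμ, hμx, hμt⟩ := pow_mk_r hr hm hrm
  have hσ0 : (T⁻¹ : E4 ≃ₜ E4) 0 = 0 := T.injective (by rw [apply_inv_self', hT.zero])
  have hσG : T⁻¹ * tauL r = G * T⁻¹ := by
    have h1 := hT.conj
    calc T⁻¹ * tauL r = T⁻¹ * (tauL r * T) * T⁻¹ := by group
      _ = T⁻¹ * (T * G) * T⁻¹ := by rw [h1]
      _ = G * T⁻¹ := by group
  have hσGm' : ∀ n : ℕ, T⁻¹ * tauL r ^ n = G ^ n * T⁻¹ := by
    intro n
    induction n with
    | zero => rw [pow_zero, pow_zero, mul_one, one_mul]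
    | succ n ih =>
      rw [pow_succ, pow_succ, ← mul_assoc, ih, mul_assoc, hσG, mul_assoc]
  have hσGm : T⁻¹ * tauL r ^ m = G ^ m * T⁻¹ := hσGm' m
  obtain ⟨ψ₀, hψ₀⟩ : ∃ ψ₀ : E4 ≃ₜ E4, ψ₀ = φ * T⁻¹ * μ := ⟨_, rfl⟩
  have hψ₀t : ψ₀ * tauL r = tauL r * ψ₀ := by
    calc ψ₀ * tauL r = φ * T⁻¹ * (μ * tauL r) := by rw [hψ₀, mul_assoc]
      _ = φ * (T⁻¹ * tauL r ^ m) * μ := by rw [hμt]; group
      _ = (φ * G ^ m) * T⁻¹ * μ := by rw [hσGm]; group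
      _ = tauL r * ψ₀ := by rw [hφm, hψ₀]; group
  have he0 : (e0 : E4) ≠ 0 := fun h => by
    have h1 := norm_e0
    rw [h, norm_zero] at h1
    exact zero_ne_one h1
  have hμray : ∀ t : ℝ, 0 < t → μ (t • e0) = (t ^ m) • e0 := by
    intro t ht
    rw [hμx, norm_smul, norm_e0, mul_one, Real.norm_of_nonneg ht.le, smul_smul, ← pow_succ]
    congr 2
    omega
  have hray : RegRay ψ₀ := by
    intro t ht
    have h1 : Reg μ (t • e0) := hμ.reg (smul_ne_zero ht.ne' he0)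
    have h2 : Reg (T⁻¹ : E4 ≃ₜ E4) (μ (t • e0)) := by
      rw [hμray t ht]
      have h3 := (hT.reg (t ^ m) (pow_pos ht m)).symm
      rwa [apply_inv_self'] at h3
    have h4 : (T⁻¹ : E4 ≃ₜ E4) (μ (t • e0)) ≠ 0 := by
      intro h5
      have h6 : μ (t • e0) = 0 := (T⁻¹ : E4 ≃ₜ E4).injective (by rw [h5, hσ0])
      exact hμ.ne (smul_ne_zero ht.ne' he0) h6
    have h7 : Reg φ ((T⁻¹ : E4 ≃ₜ E4) (μ (t • e0))) := hφ.reg h4
    have h8 : (ψ₀ : E4 → E4) = φ ∘ ((T⁻¹ : E4 ≃ₜ E4) ∘ μ) := by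
      rw [hψ₀]
      rfl
    show Reg ψ₀ (t • e0)
    rw [h8]
    exact Reg.comp h7 (Reg.comp h2 h1)
  have heq : EqvR r ψ₀ := ⟨1, one_pos, fun x _ => DFunLike.congr_fun hψ₀t x⟩
  have hinj : ∀ s t : ℝ, 0 < s → 0 < t → ψ₀ (s • e0) = ψ₀ (t • e0) → s = t := by
    intro s t _ _ h
    exact smul_left_injective ℝ he0 (ψ₀.injective h)
  obtain ⟨ψ, hψ, δ, hδ, hag⟩ := extend_germ_r hr ψ₀ hray heq hinj
  obtain ⟨L, hL, hLc⟩ := boost_r hr δ hδ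
  obtain ⟨κ₁, hκ₁⟩ : ∃ κ₁ : E4 ≃ₜ E4, κ₁ = μ * ψ⁻¹ * φ := ⟨_, rfl⟩
  obtain ⟨K₁, hK₁⟩ : ∃ K₁ : E4 ≃ₜ E4, K₁ = κ₁ * T⁻¹ := ⟨_, rfl⟩
  have hκ₁s : Sm κ₁ := by
    rw [hκ₁]
    exact (hμ.mul hψ.sm.inv).mul hφ
  have hK₁0 : K₁ 0 = 0 := by
    rw [hK₁, mul_apply', hσ0, hκ₁s.1]
  have hK₁c : ∀ x ∈ Cone δ, K₁ x = x := by
    intro x hx
    obtain ⟨y, hy⟩ : ∃ y, y = (μ⁻¹ : E4 ≃ₜ E4) x := ⟨_, rfl⟩
    have hμy : μ y = x := by rw [hy, apply_inv_self']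
    by_cases hx0 : x = 0
    · rw [hx0, hK₁0]
    have hy0 : y ≠ 0 := by
      intro h
      rw [h, hμ.1] at hμy
      exact hx0 hμy.symm
    have hc : 0 < ‖y‖ ^ (m - 1) := pow_pos (norm_pos_iff.2 hy0) _
    have hyx : y = (‖y‖ ^ (m - 1))⁻¹ • x := by
      rw [← hμy, hμx, smul_smul, inv_mul_cancel₀ hc.ne', one_smul]
    have hyc : y ∈ Cone δ := by
      rw [hyx]
      exact Cone_smul (inv_nonneg.2 hc.le) hx
    have h1 : ψ y = ψ₀ y := hag y hyc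
    have h2 : ψ₀ y = φ ((T⁻¹ : E4 ≃ₜ E4) x) := by
      rw [hψ₀, mul_apply', mul_apply', hμy]
    rw [hK₁, hκ₁, mul_apply', mul_apply', mul_apply', ← h2, ← h1, inv_apply_self', hμy]
  have hK₁m : K₁ * tauL r ^ m = tauL r ^ m * K₁ := by
    have e1 : ψ⁻¹ * tauL r = tauL r * ψ⁻¹ := hψ.inv.comm
    calc K₁ * tauL r ^ m = μ * ψ⁻¹ * φ * (T⁻¹ * tauL r ^ m) := by
          rw [hK₁, hκ₁]
          group
      _ = μ * ψ⁻¹ * (φ * G ^ m) * T⁻¹ := by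
          rw [hσGm]
          group
      _ = μ * (ψ⁻¹ * tauL r) * φ * T⁻¹ := by
          rw [hφm]
          group
      _ = (μ * tauL r) * ψ⁻¹ * φ * T⁻¹ := by
          rw [e1]
          group
      _ = tauL r ^ m * K₁ := by
          rw [hμt, hK₁, hκ₁]
          group
  refine ⟨L * κ₁, L * K₁ * L⁻¹, hL.sm.mul hκ₁s, ?_, ?_, ?_, ?_⟩
  · rw [mul_apply', mul_apply', hL.inv.sm.1, hK₁0, hL.sm.1]
  · intro x hx
    have h1 : (L⁻¹ : E4 ≃ₜ E4) x ∈ Cone δ := by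
      by_contra hcon
      have h2 := hLc _ hcon
      rw [apply_inv_self'] at h2
      exact hx h2
    rw [mul_apply', mul_apply', hK₁c _ h1, apply_inv_self']
  · have h1 : G = T⁻¹ * tauL r * T := by
      rw [hσG]
      group
    have h2 : L⁻¹ * tauL r * L = tauL r := by
      rw [mul_assoc, ← hL.comm]
      group
    calc L * κ₁ * G * (L * κ₁)⁻¹ = L * (κ₁ * T⁻¹) * tauL r * (κ₁ * T⁻¹)⁻¹ * L⁻¹ := by
          rw [h1]
          group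
      _ = L * K₁ * (L⁻¹ * tauL r * L) * K₁⁻¹ * L⁻¹ := by rw [h2, hK₁]
      _ = L * K₁ * L⁻¹ * tauL r * (L * K₁ * L⁻¹)⁻¹ := by group
  · have h1 : L * tauL r ^ m = tauL r ^ m * L :=
      ((show Commute L (tauL r) from hL.comm).pow_right m).eq
    have h2 : L⁻¹ * tauL r ^ m = tauL r ^ m * L⁻¹ :=
      ((show Commute L⁻¹ (tauL r) from hL.inv.comm).pow_right m).eq
    calc L * K₁ * L⁻¹ * tauL r ^ m = L * K₁ * (L⁻¹ * tauL r ^ m) := by group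
      _ = L * (K₁ * tauL r ^ m) * L⁻¹ := by
          rw [h2]
          group
      _ = (L * tauL r ^ m) * K₁ * L⁻¹ := by
          rw [hK₁m]
          group
      _ = tauL r ^ m * (L * K₁ * L⁻¹) := by
          rw [h1]
          group

end Pool.Agent.HopfFree
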