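import Pool.Agent.HopfFree.Shift
import Pool.Agent.HopfFree.NormN
import Pool.Agent.HopfTw.MainE

/-!
# Infinitely many generators with a given standard power

Let `G` be a generator of trivial class which is not `Off`, and `n ≥ 2` (`n` odd in the orientation
reversing case). The last member `G'` of the chain `G, G ^ n, G ^ (n ^ 2), ...` which is not `Off`
has a standard `n`-th power. In the normal form `K * tauL r * K⁻¹` of `G'` the homeomorphism `K`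
commutes with `tauL r ^ n` (`normal_form_n`), so the `V = VT r K m c`, `m` odd and coprime to `n`,
have standard `n`-th powers (`Cj_VT_pow`). For arbitrarily large such `m` the power `V ^ m` is not
`Off`, for `c = 2` or, if it is for `c = 2`, for `2 * m + 1` instead of `m` and `c = 1`
(`removal_r`).
-/

set_option autoImplicit false

open scoped ContDiff Topology
open Set Filter Metric

namespace Pool.Agent.HopfFree

open Pool.Agent.HopfCov hiding pr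
open Pool.Agent.HopfFin
open Pool.Agent.HopfTw

theorem cop_of {n a q : ℕ} (h : a + 1 = n * q) : n.Coprime a := by
  have h1 : Nat.gcd n a ∣ 1 := by
    have h2 : Nat.gcd n a ∣ a + 1 := h ▸ (Nat.gcd_dvd_left n a).mul_right q
    exact (Nat.dvd_add_right (Nat.gcd_dvd_right n a)).1 h2
  exact Nat.dvd_one.1 h1

/-- the last member of the chain of the powers which is not `Off` -/
theorem chain_Off {G : E4 ≃ₜ E4} (hO : ¬ Off G) (hc : Contr G) {n : ℕ} (hn : 1 < n) :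
    ∃ j : ℕ, ¬ Off (G ^ n ^ j) ∧ Off ((G ^ n ^ j) ^ n) := by
  classical
  obtain ⟨m₀, hm₀⟩ := Off_pow hc
  have hex : ∃ j, Off (G ^ n ^ j) := ⟨m₀, hm₀ _ (Nat.lt_pow_self hn).le⟩
  have h1 := Nat.find_spec hex
  have h0 : Nat.find hex ≠ 0 := by
    intro h
    rw [h, pow_zero, pow_one] at h1
    exact hO h1
  obtain ⟨j, hj⟩ : ∃ j, Nat.find hex = j + 1 := ⟨Nat.find hex - 1, by omega⟩
  refine ⟨j, Nat.find_min hex (by omega), ?_⟩
  rw [← pow_mul, ← pow_succ, ← hj]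
  exact h1

/-- **the theorem, orientation reversing case** -/
theorem main_n_neg {G T : E4 ≃ₜ E4} (hT : GoodR r3 G T) (hO : ¬ Off G)
    (hPD : PD (-1) G) (hdx : chi G hPD = 1) {n : ℕ} (hn : Odd n) (hn1 : 1 < n) :
    ∃ V : ℕ → (E4 ≃ₜ E4), (∀ k, PD (-1) (V k) ∧ (∀ h, chi (V k) h = 1) ∧ ¬ Off (V k) ∧
      (∃ T' : E4 ≃ₜ E4, GoodR r3 (V k) T') ∧ Cj (V k ^ n) (tauL r3 ^ n)) ∧
      ∀ i j, i ≠ j → ¬ CjV (V i) (V j) := by
  obtain ⟨j₀, hj1, hj2⟩ := chain_Off hO (hT.contr Rf_r3) hn1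
  have hnj : Odd (n ^ j₀) := hn.pow
  have hPD' : PD (-1) (G ^ n ^ j₀) := hPD.pow_odd hnj
  have hdx' : chi (G ^ n ^ j₀) hPD' = 1 := by rw [chi_pow hPD hnj, hdx, one_pow]
  obtain ⟨T₁, hT₁⟩ := hT.pow Rf_r3 hnj
  have hc₁ : Contr (G ^ n ^ j₀) := hT₁.contr Rf_r3
  have hPDn : PD (-1) ((G ^ n ^ j₀) ^ n) := hPD'.pow_odd hn
  obtain ⟨φ, hφ, hφn⟩ := std_of_Off_neg hPDn (hc₁.pow hn.pos) hj2
    (by rw [chi_pow hPD' hn, hdx', one_pow])
  obtain ⟨κ, K, hκ, h0, hK, hκK, hKn⟩ := normal_form_n Rf_r3 hT₁ hn.pos (linH_odd Rf_r3 hn) hφ hφn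
  have hcj : Cj (G ^ n ^ j₀) (K * tauL r3 * K⁻¹) := by
    rw [← hκK]
    exact Cj_conj _ hκ
  have hg : PD (-1) (K * tauL r3 * K⁻¹) := PD_Cj hcj hPD'
  have hg1 : chi (K * tauL r3 * K⁻¹) hg = 1 := by
    rw [chi_Cj hcj hPD' hg]
    exact hdx'
  have hgO : ¬ Off (K * tauL r3 * K⁻¹) := fun h => hj1 ((Off.congr hcj).2 h)
  have hVc : ∀ m c : ℕ, Odd m → 0 < c → Contr (VT r3 K m c) := fun m c hm hc1 => by
    obtain ⟨T', hT'⟩ := VT_good Rf_r3 h0 hK hm hc1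
    exact hT'.contr Rf_r3
  have hlarge : ∀ N : ℕ, ∃ x : ℕ × ℕ × ℕ, N ≤ x.2.2 ∧ Odd x.1 ∧ n.Coprime x.1 ∧ 0 < x.2.1 ∧
      0 < x.2.2 ∧ ¬ Off (VT r3 K x.1 x.2.1 ^ x.2.2) := by
    intro N
    obtain ⟨b, hb⟩ : ∃ b, n * (N + 1) = b + 1 := ⟨n * (N + 1) - 1, by
      have : 0 < n * (N + 1) := by positivity
      omega⟩
    have hNb : N ≤ b := by nlinarith
    obtain ⟨a, ha⟩ : ∃ a, a = 2 * b + 1 := ⟨_, rfl⟩
    have hao : Odd a := ⟨b, ha⟩
    have hac : n.Coprime a := cop_of (q := 2 * (N + 1)) (by rw [ha]; nlinarith)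
    by_cases h1 : Off (VT r3 K a 2 ^ a)
    · have hV : PD (-1) (VT r3 K a 2) := VT_PD h0 hK hg hao two_pos
      have hVn := hV.pow_odd hao
      have h2 : chi (VT r3 K a 2 ^ a) hVn = 1 := by
        rw [chi_pow hV hao, chi_VT h0 hK hg hao two_pos, hg1, one_pow, one_pow]
      have h3 := std_of_Off_neg hVn ((hVc _ _ hao two_pos).pow hao.pos) h1 h2
      rw [VT_pow Rf_r3 K hao] at h3
      have h4 := removal_r (n := a) (d := 1) Rf_r3 h0 hK hao.pos Nat.one_pos h3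
      have hodd : Odd (a * (2 * 1) + 1) := ⟨a, by ring⟩
      have hcop : n.Coprime (a * (2 * 1) + 1) := cop_of (q := 4 * (N + 1)) (by rw [ha]; nlinarith)
      refine ⟨(a * (2 * 1) + 1, 1, a * (2 * 1) + 1), ?_, hodd, hcop, Nat.one_pos,
        Nat.succ_pos _, ?_⟩
      · show N ≤ a * (2 * 1) + 1
        omega
      · show ¬ Off (VT r3 K (a * (2 * 1) + 1) 1 ^ (a * (2 * 1) + 1))
        rw [VT_pow Rf_r3 K hodd, mul_one]
        exact fun h => hgO ((Off.congr h4).1 h)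
    · exact ⟨(a, 2, a), by show N ≤ a; omega, hao, hac, two_pos, hao.pos, h1⟩
  -- the sequence
  obtain ⟨f, hf1, hf2⟩ := exists_seq_of_forall_finset_exists
    (fun x : ℕ × ℕ × ℕ => Odd x.1 ∧ n.Coprime x.1 ∧ 0 < x.2.1 ∧ 0 < x.2.2 ∧
      ¬ Off (VT r3 K x.1 x.2.1 ^ x.2.2))
    (fun x y : ℕ × ℕ × ℕ => Off (VT r3 K x.1 x.2.1 ^ y.2.2)) (by
      intro s hs
      have hb : ∀ x ∈ s, ∃ b : ℕ, ∀ e ≥ b, Off (VT r3 K x.1 x.2.1 ^ e) := fun x hx =>
        Off_pow (hVc _ _ (hs x hx).1 (hs x hx).2.2.1)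
      choose! b hb' using hb
      obtain ⟨y, hy1, hy2⟩ := hlarge (s.sup b)
      exact ⟨y, hy2, fun x hx => hb' x hx _ (le_trans (Finset.le_sup hx) hy1)⟩)
  have hkey : ∀ i j : ℕ, i < j →
      ¬ CjV (VT r3 K (f i).1 (f i).2.1) (VT r3 K (f j).1 (f j).2.1) := fun i j hij hcon =>
    (hf1 j).2.2.2.2 (CjV.off (hVc _ _ (hf1 j).1 (hf1 j).2.2.1) (hVc _ _ (hf1 i).1 (hf1 i).2.2.1)
      hcon.symm (hf1 j).2.2.2.1 (hf2 i j hij))
  refine ⟨fun k => VT r3 K (f k).1 (f k).2.1, fun k =>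
    ⟨VT_PD h0 hK hg (hf1 k).1 (hf1 k).2.2.1,
      fun h => by rw [chi_VT h0 hK hg (hf1 k).1 (hf1 k).2.2.1 h, hg1, one_pow],
      fun hcon => (hf1 k).2.2.2.2 (Off_of_pow hcon (hf1 k).2.2.2.1),
      VT_good Rf_r3 h0 hK (hf1 k).1 (hf1 k).2.2.1,
      Cj_VT_pow Rf_r3 h0 hK (hf1 k).1 (hf1 k).2.2.1 (hf1 k).2.1 hKn (Sm_of_PD hg)⟩,
    fun i j hij hcon => ?_⟩
  rcases lt_or_gt_of_ne hij with h | h
  · exact hkey i j h hcon
  · exact hkey j i h hcon.symm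

end Pool.Agent.HopfFree
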