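import Pool.Agent.HopfFree.MainN

/-!
# Infinitely many generators with a given standard power, orientation preserving case

The proof of `main_n_neg` in `HopfFree/MainN.lean` with `r = 1`.
-/

set_option autoImplicit false

open scoped ContDiff Topology
open Set Filter Metric

namespace Pool.Agent.HopfFree

open Pool.Agent.HopfCov hiding pr
open Pool.Agent.HopfFin
open Pool.Agent.HopfTw

/-- the identity as an isometry -/
noncomputable def rI : E4 ≃ₗᵢ[ℝ] E4 := LinearIsometryEquiv.refl ℝ E4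

theorem Rf_rI : Rf rI := Rf_refl

theorem tauL_rI : tauL rI = (tau : E4 ≃ₜ E4) := Homeomorph.ext fun x => by
  rw [tauL_apply, tau_apply]
  rfl

theorem linH_rI : linH rI = (1 : E4 ≃ₜ E4) := Homeomorph.ext fun x => by
  rw [linH_apply]
  rfl

theorem ZT_rI (n : ℕ) : ZT rI n = lamH (1 / n) := by
  rw [ZT, linH_rI, mul_one]

theorem goodR_of {G T : E4 ≃ₜ E4} (h : Good G T e0) : GoodR rI G T :=
  ⟨h.zero, by rw [tauL_rI]; exact h.conj, h.reg⟩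

theorem good_of {G T : E4 ≃ₜ E4} (h : GoodR rI G T) : Good G T e0 :=
  ⟨h.zero, by rw [← tauL_rI]; exact h.conj, h.reg⟩

/-- a product of conjugates -/
theorem list_pos {g : E4 ≃ₜ E4} (hg : PD 1 g) (hE : Ext g) {P : ℕ → (E4 ≃ₜ E4)}
    (hP : ∀ j, Sm (P j)) (c : ℕ) :
    PD 1 ((List.range c).map fun j => P j * g * (P j)⁻¹).prod ∧
      Ext ((List.range c).map fun j => P j * g * (P j)⁻¹).prod := by
  induction c with
  | zero => exact ⟨by simpa using PD_one, by simpa using Ext_one⟩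
  | succ c ih =>
    have e : ((List.range (c + 1)).map fun j => P j * g * (P j)⁻¹).prod =
        ((List.range c).map fun j => P j * g * (P j)⁻¹).prod * (P c * g * (P c)⁻¹) := by
      rw [List.range_succ, List.map_append, List.prod_append, List.map_singleton,
        List.prod_singleton]
    rw [e]
    obtain ⟨s, hs, hP'⟩ := (hP c).exists_sign
    exact ⟨ih.1.mul_one' (PD_conj hs hP' hg), ih.2.mul (Ext_congr (Cj_conj _ (hP c)) hE)⟩

theorem VT_pos {K : E4 ≃ₜ E4} (h0 : K 0 = 0) (hK : Supp K (Cone 1))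
    (hg : PD 1 (K * tau * K⁻¹)) (hE : Ext (K * tau * K⁻¹)) {n : ℕ} (hn : Odd n) {c : ℕ}
    (hc : 0 < c) : PD 1 (VT rI K n c) ∧ Ext (VT rI K n c) := by
  have h1 : PD 1 (K * tau * K⁻¹ * tau⁻¹) := hg.mul_one' PD_tau.inv
  have h2 : Ext (K * tau * K⁻¹ * tau⁻¹) := hE.mul Ext_tau.inv
  obtain ⟨h3, h4⟩ := list_pos h1 h2 (P := fun j => PT rI (n * c) c j)
    (fun j => (PT_pr Rf_rI (n * c) c j).sm) c
  rw [VT_eq Rf_rI h0 hK hn hc, ZT_rI, tauL_rI]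
  exact ⟨h3.mul_one' (lamH_PD _), h4.mul (lamH_Ext _)⟩

/-- **the theorem, orientation preserving case** -/
theorem main_n_pos {G T : E4 ≃ₜ E4} (hG : Sm G) (hT : Good G T e0) (hO : ¬ Off G) (hE : Ext G)
    {n : ℕ} (hn1 : 1 < n) :
    ∃ V : ℕ → (E4 ≃ₜ E4), (∀ k, Sm (V k) ∧ Ext (V k) ∧ ¬ Off (V k) ∧
      (∃ T' : E4 ≃ₜ E4, Good (V k) T' e0) ∧ Cj (V k ^ n) (tau ^ n)) ∧
      ∀ i j, i ≠ j → ¬ CjV (V i) (V j) := by
  have he0 := e0_ne_level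
  have hn0 : 0 < n := by omega
  have hPD : PD 1 G := hT.PD hG he0
  obtain ⟨j₀, hj1, hj2⟩ := chain_Off hO hT.contr hn1
  have hPD' : PD 1 (G ^ n ^ j₀) := hPD.pow _
  have hE' : Ext (G ^ n ^ j₀) := Ext_pow_level hE _
  obtain ⟨T₁, hT₁⟩ := hT.pow norm_e0 (pow_pos hn0 j₀)
  have hc₁ : Contr (G ^ n ^ j₀) := hT₁.contr
  obtain ⟨φ, hφ, hφn⟩ := std_of_Off (hPD'.pow n) (hc₁.pow hn0) hj2 (Ext_pow_level hE' _)
  obtain ⟨κ, K, hκ, h0, hK, hκK, hKn⟩ := normal_form_n Rf_rI (goodR_of hT₁) hn0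
    (by rw [linH_rI, one_pow]) hφ (by rw [tauL_rI]; exact hφn)
  have hcj : Cj (G ^ n ^ j₀) (K * tau * K⁻¹) := by
    rw [← tauL_rI, ← hκK]
    exact Cj_conj _ hκ
  have hg : PD 1 (K * tau * K⁻¹) := by
    rw [← tauL_rI, ← hκK]
    obtain ⟨s, hs, hκs⟩ := hκ.exists_sign
    have h1 := (hκs.mul hPD').mul hκs.inv
    rwa [mul_one, hs] at h1
  have hEg : Ext (K * tau * K⁻¹) := Ext_congr hcj hE'
  have hgO : ¬ Off (K * tau * K⁻¹) := fun h => hj1 ((Off.congr hcj).2 h)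
  have hVc : ∀ m c : ℕ, Odd m → 0 < c → Contr (VT rI K m c) := fun m c hm hc1 => by
    obtain ⟨T', hT'⟩ := VT_good Rf_rI h0 hK hm hc1
    exact hT'.contr Rf_rI
  have hlarge : ∀ N : ℕ, ∃ x : ℕ × ℕ × ℕ, N ≤ x.2.2 ∧ Odd x.1 ∧ n.Coprime x.1 ∧ 0 < x.2.1 ∧
      0 < x.2.2 ∧ ¬ Off (VT rI K x.1 x.2.1 ^ x.2.2) := by
    intro N
    obtain ⟨b, hb⟩ : ∃ b, n * (N + 1) = b + 1 := ⟨n * (N + 1) - 1, by
      have : 0 < n * (N + 1) := by positivity
      omega⟩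
    have hNb : N ≤ b := by nlinarith
    obtain ⟨a, ha⟩ : ∃ a, a = 2 * b + 1 := ⟨_, rfl⟩
    have hao : Odd a := ⟨b, ha⟩
    have hac : n.Coprime a := cop_of (q := 2 * (N + 1)) (by rw [ha]; nlinarith)
    by_cases h1 : Off (VT rI K a 2 ^ a)
    · obtain ⟨hV, hVE⟩ := VT_pos h0 hK hg hEg hao two_pos
      have h3 := std_of_Off (hV.pow a) ((hVc _ _ hao two_pos).pow hao.pos) h1
        (Ext_pow_level hVE _)
      rw [VT_pow Rf_rI K hao, ← tauL_rI] at h3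
      have h4 := removal_r (n := a) (d := 1) Rf_rI h0 hK hao.pos Nat.one_pos h3
      rw [tauL_rI] at h4
      have hodd : Odd (a * (2 * 1) + 1) := ⟨a, by ring⟩
      have hcop : n.Coprime (a * (2 * 1) + 1) := cop_of (q := 4 * (N + 1)) (by rw [ha]; nlinarith)
      refine ⟨(a * (2 * 1) + 1, 1, a * (2 * 1) + 1), ?_, hodd, hcop, Nat.one_pos,
        Nat.succ_pos _, ?_⟩
      · show N ≤ a * (2 * 1) + 1
        omega
      · show ¬ Off (VT rI K (a * (2 * 1) + 1) 1 ^ (a * (2 * 1) + 1))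
        rw [VT_pow Rf_rI K hodd, mul_one]
        exact fun h => hgO ((Off.congr h4).1 h)
    · exact ⟨(a, 2, a), by show N ≤ a; omega, hao, hac, two_pos, hao.pos, h1⟩
  -- the sequence
  obtain ⟨f, hf1, hf2⟩ := exists_seq_of_forall_finset_exists
    (fun x : ℕ × ℕ × ℕ => Odd x.1 ∧ n.Coprime x.1 ∧ 0 < x.2.1 ∧ 0 < x.2.2 ∧
      ¬ Off (VT rI K x.1 x.2.1 ^ x.2.2))
    (fun x y : ℕ × ℕ × ℕ => Off (VT rI K x.1 x.2.1 ^ y.2.2)) (by
      intro s hs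
      have hb : ∀ x ∈ s, ∃ b : ℕ, ∀ e ≥ b, Off (VT rI K x.1 x.2.1 ^ e) := fun x hx =>
        Off_pow (hVc _ _ (hs x hx).1 (hs x hx).2.2.1)
      choose! b hb' using hb
      obtain ⟨y, hy1, hy2⟩ := hlarge (s.sup b)
      exact ⟨y, hy2, fun x hx => hb' x hx _ (le_trans (Finset.le_sup hx) hy1)⟩)
  have hkey : ∀ i j : ℕ, i < j →
      ¬ CjV (VT rI K (f i).1 (f i).2.1) (VT rI K (f j).1 (f j).2.1) := fun i j hij hcon =>
    (hf1 j).2.2.2.2 (CjV.off (hVc _ _ (hf1 j).1 (hf1 j).2.2.1) (hVc _ _ (hf1 i).1 (hf1 i).2.2.1)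
      hcon.symm (hf1 j).2.2.2.1 (hf2 i j hij))
  refine ⟨fun k => VT rI K (f k).1 (f k).2.1, fun k => ?_, fun i j hij hcon => ?_⟩
  · obtain ⟨hV, hVE⟩ := VT_pos h0 hK hg hEg (hf1 k).1 (hf1 k).2.2.1
    obtain ⟨T', hT'⟩ := VT_good Rf_rI h0 hK (hf1 k).1 (hf1 k).2.2.1
    have h5 := Cj_VT_pow Rf_rI h0 hK (hf1 k).1 (hf1 k).2.2.1 (hf1 k).2.1 hKn
      (by rw [tauL_rI]; exact Sm_of_PD hg)
    rw [tauL_rI] at h5
    exact ⟨Sm_of_PD hV, hVE, fun hcon => (hf1 k).2.2.2.2 (Off_of_pow hcon (hf1 k).2.2.2.1),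
      ⟨T', good_of hT'⟩, h5⟩
  rcases lt_or_gt_of_ne hij with h | h
  · exact hkey i j h hcon
  · exact hkey j i h hcon.symm

end Pool.Agent.HopfFree
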