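import Pool.Agent.HopfFree.StatementMin

/-!
# Manifolds all of whose proper coverings with an odd number of sheets are twisted products
-/

set_option autoImplicit false

open scoped ContDiff Topology Manifold
open Set Filter Metric

namespace Pool.Agent.HopfCov.Smooth

/-- all closed connected coverings of `M` with an odd number `m ≥ 3` of sheets are twisted
products -/
def ProperStdOdd (M : Mfd4) : Prop :=
  ∀ (m : ℕ) (N : Mfd4) (q : N → M), 3 ≤ m → Odd m → Closed N → Cover m q → TwistedProduct N

end Pool.Agent.HopfCov.Smooth
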