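import Pool.Agent.HopfFree.MinMfd
import Pool.Agent.HopfFree.StatementOdd

/-!
# The members all of whose proper coverings are standard decide
-/

set_option autoImplicit false

open scoped ContDiff Topology Manifold
open Set Filter Metric

namespace Pool.Agent.HopfFree

open Pool.Agent.HopfCov
open Pool.Agent.HopfFin hiding pr
open Pool.Agent.HopfTw
open Pool.Agent.HopfCov.Smooth
open Pool.Agent.HopfEnd

/-- a minimal member of `T` -/
theorem minimal_ClassT (h : ∃ M : Mfd4, ClassT M ∧ ¬ OffPointT M) :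
    ∃ M : Mfd4, ClassT M ∧ ¬ OffPointT M ∧ ProperStdOdd M := by
  obtain ⟨M, hM, hO⟩ := h
  simp only [classT_iff] at hM ⊢
  obtain ⟨G, T, h1, h2, h3, h4⟩ := exists_star_T hM hO
  obtain ⟨H, T', j1, j2, j3, j4, j5⟩ := minimal_neg h2 h3 h1 h4
  obtain ⟨N, p, g, i1, i2, i3, i4, i5⟩ := space_good_neg j1 j3
  have hc : Contr H := j3.contr Rf_r3
  refine ⟨N, i1, fun hoff => j4 (off_of_offPointT ⟨i2, i3⟩ i4 i5 hc hoff), ?_⟩
  intro m N' q hm ho hN' hq
  have h12 : PD (-1) (H ^ m) := j1.pow_odd ho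
  have h13 : Cj (H ^ m) (tauL r3 ^ m) := (std_of_Off_neg h12 (hc.pow ho.pos)
    (j5 m ho (by omega)) (by rw [chi_pow j1 ho, j2, one_pow])).trans (Cj_r3_odd ho).symm
  exact (coverStdT_of ⟨i2, i3⟩ i4 i5 h13 m N' q dvd_rfl ho.pos hN' hq).2 ho

/-- **all members of `S` are standard off one point** if and only if the members all of whose
proper coverings are standard are standard -/
theorem min_ClassS : (∀ M : Mfd4, ClassS M → ProperStd M → DiffeoS1S3 M) ↔
    ∀ M : Mfd4, ClassS M → OffPoint M := by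
  constructor
  · intro h M hM
    by_contra hO
    obtain ⟨N, h1, h2, h3⟩ := minimal_ClassS ⟨M, hM, hO⟩
    exact h2 (offPoint_of_std ((classS_iff N).1 h1) (h N h1 h3))
  · intro h M hM hC
    simp only [classS_iff] at h hM
    exact offPoint_iff_virt.1 h M hM ⟨2, hC⟩

/-- the class of a member of `T` which is standard off one point, and its odd powers -/
theorem chi_of_off {M : Mfd4} (h : OffPointT M) : ∃ x : AB, (TwistedProduct M ↔ x = 1) ∧
    ∀ m : ℕ, Odd m → ∃ (N : Mfd4) (q : N → M), Closed N ∧ Cover m q ∧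
      (TwistedProduct N ↔ x ^ m = 1) := by
  obtain ⟨X, hX, hMX⟩ := h
  obtain ⟨p, G, h1, h2⟩ := (almost_neg hX).1 ((almost_off (Or.inr hX)).2 hMX)
  have hG1 : PD (-1) (show E4 ≃ₜ E4 from G) := by
    rcases mem_groupP.1 h1.mem with h3 | h3
    · exact absurd (mem_groupD.2 h3) h2
    · exact h3
  refine ⟨chi (show E4 ≃ₜ E4 from G) hG1, ?_, fun m ho => ?_⟩
  · exact twistedProduct_iff.trans (twisted_iff (orbit_eq.1 h1) hG1)
  · obtain ⟨N, q, hN, hq⟩ := exists_power h1 ho.pos
    obtain ⟨p', h3, -⟩ := cover_final h1 ho.pos hN hq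
    refine ⟨N, q, hN, hq, ?_⟩
    have e := chi_pow hG1 ho (hG1.pow_odd ho)
    rw [← e]
    exact twistedProduct_iff.trans (twisted_iff (orbit_eq.1 h3) (hG1.pow_odd ho))

/-- the same for `T` and odd numbers of sheets -/
theorem min_ClassT : (∀ M : Mfd4, ClassT M → ProperStdOdd M → TwistedProduct M) ↔
    ∀ M : Mfd4, ClassT M → OffPointT M := by
  constructor
  · intro h M hM
    by_contra hO
    obtain ⟨N, h1, h2, h3⟩ := minimal_ClassT ⟨M, hM, hO⟩
    exact h2 (offPointT_of_twisted ((classT_iff N).1 h1) (h N h1 h3))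
  · intro h M hM hC
    obtain ⟨x, h1, h2⟩ := chi_of_off (h M hM)
    have key : ∀ m : ℕ, 3 ≤ m → Odd m → x ^ m = 1 := by
      intro m hm ho
      obtain ⟨N, q, hN, hq, h3⟩ := h2 m ho
      exact h3.1 (hC m N q hm ho hN hq)
    have e3 := key 3 (by norm_num) (by decide)
    have e5 := key 5 (by norm_num) (by decide)
    have e2 : x ^ 2 = 1 := by
      have e : x ^ 5 = x ^ 2 * x ^ 3 := by rw [← pow_add]
      rwa [e3, mul_one, e5, eq_comm] at e
    refine h1.2 ?_
    have e : x ^ 3 = x ^ 2 * x := by rw [← pow_succ]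
    rwa [e2, one_mul, e3, eq_comm] at e

end Pool.Agent.HopfFree
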