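import Pool.Agent.HopfFree.MainP

/-!
# Generators all of whose proper powers are standard

Let `m` be the largest number such that `G ^ m` is not `Off` (the largest odd number in the
orientation reversing case). All the powers of `G ^ m` (the odd ones) but the first are `Off`.
-/

set_option autoImplicit false

open scoped ContDiff Topology
open Set Filter Metric

namespace Pool.Agent.HopfFree

open Pool.Agent.HopfCov hiding pr
open Pool.Agent.HopfFin
open Pool.Agent.HopfTw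

/-- a largest number -/
theorem exists_largest {P : ℕ → Prop} (h1 : P 1) {m₀ : ℕ} (hm₀ : ∀ m ≥ m₀, ¬ P m) :
    ∃ m, 0 < m ∧ P m ∧ ∀ k, m < k → ¬ P k := by
  classical
  have hb : ∀ k, P k → k ≤ m₀ := fun k hk => by
    by_contra h
    exact hm₀ k (by omega) hk
  have h2 := Nat.findGreatest_spec (P := P) (hb 1 h1) h1
  refine ⟨Nat.findGreatest P m₀, ?_, h2, fun k hk hPk => ?_⟩
  · have := Nat.le_findGreatest (P := P) (hb 1 h1) h1
    omega
  · have := Nat.le_findGreatest (P := P) (hb k hPk) hPk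
    omega

/-- **the minimal generator, orientation preserving case** -/
theorem minimal_pos {G T : E4 ≃ₜ E4} (hG : Sm G) (hT : Good G T e0) (hO : ¬ Off G) (hE : Ext G) :
    ∃ G' T' : E4 ≃ₜ E4, Sm G' ∧ Good G' T' e0 ∧ ¬ Off G' ∧ Ext G' ∧
      ∀ k : ℕ, 2 ≤ k → Off (G' ^ k) := by
  obtain ⟨m₀, hm₀⟩ := Off_pow hT.contr
  obtain ⟨m, hm, h1, h2⟩ := exists_largest (P := fun m => ¬ Off (G ^ m)) (by rwa [pow_one])
    (m₀ := m₀) fun k hk h => h (hm₀ k hk)
  obtain ⟨T', hT'⟩ := hT.pow norm_e0 hm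
  refine ⟨G ^ m, T', hG.pow m, hT', h1, Ext_pow_level hE m, fun k hk => ?_⟩
  have h3 := h2 (m * k) (by nlinarith)
  rw [← pow_mul]
  exact not_not.1 h3

/-- **the minimal generator, orientation reversing case** -/
theorem minimal_neg {G T : E4 ≃ₜ E4} (hT : GoodR r3 G T) (hO : ¬ Off G)
    (hPD : PD (-1) G) (hdx : chi G hPD = 1) :
    ∃ G' T' : E4 ≃ₜ E4, PD (-1) G' ∧ (∀ h, chi G' h = 1) ∧ GoodR r3 G' T' ∧ ¬ Off G' ∧
      ∀ k : ℕ, Odd k → 2 ≤ k → Off (G' ^ k) := by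
  obtain ⟨m₀, hm₀⟩ := Off_pow (hT.contr Rf_r3)
  obtain ⟨m, hm, ⟨h0, h1⟩, h2⟩ := exists_largest (P := fun m => Odd m ∧ ¬ Off (G ^ m))
    ⟨odd_one, by rwa [pow_one]⟩ (m₀ := m₀) fun k hk h => h.2 (hm₀ k hk)
  obtain ⟨T', hT'⟩ := hT.pow Rf_r3 h0
  have hPD' : PD (-1) (G ^ m) := hPD.pow_odd h0
  refine ⟨G ^ m, T', hPD', fun h => by rw [chi_pow hPD h0, hdx, one_pow], hT', h1,
    fun k hko hk => ?_⟩
  have h3 := h2 (m * k) (by nlinarith)
  rw [← pow_mul]
  by_contra h4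
  exact h3 ⟨h0.mul hko, h4⟩

end Pool.Agent.HopfFree
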