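import Pool.Agent.HopfFree.Tors
import Pool.Agent.HopfEnd.Far

/-!
# Uniqueness and cancellation of the number of sheets
-/

set_option autoImplicit false

open scoped ContDiff Topology Manifold
open Set Filter Metric

namespace Pool.Agent.HopfFree

open Pool.Agent.HopfCov
open Pool.Agent.HopfFin hiding pr
open Pool.Agent.HopfTw
open Pool.Agent.HopfCov.Smooth
open Pool.Agent.HopfEnd

/-- even powers of a generator of class `T` belong to the class `S` -/
theorem good_even {G T : E4 ≃ₜ E4} (hT : GoodR r3 G T) {m : ℕ} (hm : 0 < m) (he : Even m) :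
    ∃ T' : E4 ≃ₜ E4, Good (G ^ m) T' e0 := by
  obtain ⟨μ, hμ, hμx, hμt⟩ := pow_mk m hm
  have hpow : T * G ^ m = tau ^ m * T := by
    have h1 : T * G ^ m = tauL r3 ^ m * T :=
      ((show SemiconjBy T G (tauL r3) from hT.conj).pow_right m).eq
    rw [h1, tauL_even Rf_r3 he]
  refine ⟨μ⁻¹ * T, ?_, ?_, ?_⟩
  · rw [mul_apply', hT.zero]
    exact hμ.inv.1
  · have h1 : tau * μ⁻¹ = μ⁻¹ * tau ^ m := by
      rw [eq_inv_mul_iff_mul_eq, ← mul_assoc, hμt, mul_assoc, mul_inv_cancel, mul_one]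
    rw [mul_assoc, hpow, ← mul_assoc, ← h1, mul_assoc]
  · intro t ht
    have h1 : ((μ⁻¹ * T)⁻¹ : E4 ≃ₜ E4) (t • e0) =
        (T⁻¹ : E4 ≃ₜ E4) ((t ^ (m - 1) * t) • e0) := by
      rw [mul_inv_rev, inv_inv, mul_apply', hμx, norm_smul, norm_e0, mul_one, Real.norm_eq_abs,
        abs_of_pos ht, smul_smul]
    rw [h1]
    have h2 : Reg T ((T⁻¹ : E4 ≃ₜ E4) ((t ^ (m - 1) * t) • e0)) := hT.reg _ (by positivity)
    have h3 : Reg (μ⁻¹ : E4 ≃ₜ E4) (T ((T⁻¹ : E4 ≃ₜ E4) ((t ^ (m - 1) * t) • e0))) := by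
      rw [apply_inv_self']
      exact hμ.inv.reg (smul_ne_zero (by positivity) e0_ne_level)
    exact Reg.comp (f := T) (g := (μ⁻¹ : E4 ≃ₜ E4)) h3 h2

/-- a standard twisted product is standard off one point -/
theorem offPointT_of_twisted {M : Mfd4} (hM : InT M) (h : TwistedProduct M) : OffPointT M := by
  refine ⟨M, h, Homeomorph.refl _, ?_⟩
  obtain ⟨p, hp⟩ := hM.univ
  exact ⟨p ⟨e0, e0_ne_level⟩, fun x _ =>
    (Diffeomorph.refl (𝓡 4) M.carrier ∞).isLocalDiffeomorph x⟩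

/-- if the members of both classes whose coverings with `n` sheets are standard are standard then
all members are standard off one point -/
theorem off_of_free {n : ℕ} (hn : 1 < n) (h : FreeStd n) :
    (∀ M : Mfd4, InS M → OffPoint M) ∧ ∀ M : Mfd4, InT M → OffPointT M := by
  obtain ⟨hS, hT⟩ := h
  simp only [classS_iff, classT_iff] at hS hT
  have hn0 : 0 < n := by omega
  have h1 := ((cancel_S hn).1 hS).1
  refine ⟨h1, ?_⟩
  rcases Nat.even_or_odd n with he | ho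
  · intro M hM
    by_contra hO
    obtain ⟨G, T, h2, h3, h4, h5⟩ := exists_star_T hM hO
    have hc : Contr G := h3.contr Rf_r3
    obtain ⟨T', h6⟩ := good_even h3 hn0 he
    have h7 : PD 1 (G ^ n) := h2.pow_even he
    obtain ⟨N', p', g', j1, j2, j3, j4, j5⟩ := space_good (Sm_of_PD h7) h6
    have h8 : Off (G ^ n) := off_of_offPoint ⟨j2, j3⟩ j4 j5 h6.contr (h1 N' j1)
    have hE : Ext (G ^ n) := Ext_of_chi_pow (d := 1) h2 (by rw [pow_one, h5])
      (by simpa using he.two_dvd)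
    have h9 : Cj (G ^ n) (tauL r3 ^ n) :=
      (std_of_Off h7 (hc.pow hn0) h8 hE).trans (Cj_r3_even hn0 he).symm
    obtain ⟨N, p, g, i1, i2, i3, i4, i5⟩ := space_good_neg h2 h3
    have h10 := hT N i1 (coverStdT_of ⟨i2, i3⟩ i4 i5 h9)
    exact h4 (off_of_offPointT ⟨i2, i3⟩ i4 i5 hc (offPointT_of_twisted i1 h10))
  · exact ((cancel_T hn ho).1 hT).1

/-- **uniqueness** -/
theorem unique_free {n : ℕ} (hn : 1 < n) :
    ((∀ M : Mfd4, ClassS M → DiffeoS1S3 M) ∧ ∀ M : Mfd4, ClassT M → TwistedProduct M) ↔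
      Schoenflies ∧ FreeStd n := by
  constructor
  · rintro ⟨h1, h2⟩
    exact ⟨(unique_ST.1 ⟨h1, h2⟩).1, fun M hM _ => h1 M hM, fun M hM _ => h2 M hM⟩
  · rintro ⟨h1, h2⟩
    obtain ⟨h3, h4⟩ := off_of_free hn h2
    have h5 : derD = grpD := schoenflies_iff.2 h1
    have h6 : derP = grpD := pos_neg h5
    refine unique_ST.2 ⟨h1, finS_iff.2 (finite_iff.2 ⟨h3, ?_⟩),
      finT_iff.2 (finite_iff_T.2 ⟨h4, ?_⟩)⟩
    · rw [h5, Subgroup.relIndex_self]
      exact one_ne_zero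
    · rw [h6, Subgroup.relIndex_self]
      exact one_ne_zero

theorem free_ClassS {n : ℕ} (hn : 1 < n) (h : ∃ M : Mfd4, ClassS M ∧ ¬ OffPoint M) :
    ∃ N : ℕ → Mfd4, (∀ k, ClassS (N k) ∧ ¬ OffPoint (N k) ∧ VirtuallyStandard (N k) ∧
      CoverStd n (N k)) ∧ ∀ i j, i ≠ j → ¬ Diffeomorphic (N i) (N j) := by
  obtain ⟨M, hM, hO⟩ := h
  simp only [classS_iff] at hM ⊢
  exact free_S hM hO hn

theorem free_ClassT {n : ℕ} (hn : 1 < n) (ho : Odd n) (h : ∃ M : Mfd4, ClassT M ∧ ¬ OffPointT M) :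
    ∃ N : ℕ → Mfd4, (∀ k, ClassT (N k) ∧ ¬ OffPointT (N k) ∧ VirtuallyStandardT (N k) ∧
      CoverStdT n (N k)) ∧ ∀ i j, i ≠ j → ¬ Diffeomorphic (N i) (N j) := by
  obtain ⟨M, hM, hO⟩ := h
  simp only [classT_iff] at hM ⊢
  exact free_T hM hO hn ho

theorem cancel_ClassS {n : ℕ} (hn : 1 < n) :
    (∀ M : Mfd4, ClassS M → CoverStd n M → DiffeoS1S3 M) ↔
      (∀ M : Mfd4, ClassS M → OffPoint M) ∧ ∀ g ∈ grpD, g ^ n ∈ derD → g ∈ derD := by
  simp only [classS_iff]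
  exact cancel_S hn

theorem cancel_ClassT {n : ℕ} (hn : 1 < n) (ho : Odd n) :
    (∀ M : Mfd4, ClassT M → CoverStdT n M → TwistedProduct M) ↔
      (∀ M : Mfd4, ClassT M → OffPointT M) ∧ ∀ g ∈ grpD, g ^ n ∈ derP → g ∈ derP := by
  simp only [classT_iff]
  exact cancel_T hn ho

end Pool.Agent.HopfFree
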