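import Pool.Agent.HopfFree.StatementMin
import Pool.Agent.HopfFree.Minimal
import Pool.Agent.HopfFree.Unique

/-!
# Uniqueness and manifolds all of whose proper coverings are standard
-/

set_option autoImplicit false

open scoped ContDiff Topology Manifold
open Set Filter Metric

namespace Pool.Agent.HopfFree

open Pool.Agent.HopfCov
open Pool.Agent.HopfFin hiding pr
open Pool.Agent.HopfTw
open Pool.Agent.HopfCov.Smooth
open Pool.Agent.HopfEnd

/-- coverings of an orbit space of `G` if the proper powers of `G` are `Off` -/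
theorem properStd_of {M : Mfd4} (hM : T2Space M ∧ CompactSpace M) {p : V4 → M.carrier}
    {g : V4 ≃ₜ V4} {G : E4 ≃ₜ E4} (hp : OrbitMap g p) (hG : Extends G g) (hPD : PD 1 G)
    (hc : Contr G) (hE : Ext G) (h : ∀ k : ℕ, 2 ≤ k → Off (G ^ k)) : ProperStd M := by
  intro m N q hm hN hq
  have hm0 : 0 < m := by omega
  refine coverStd_of hM hp hG (n := m) ?_ m N q dvd_rfl hm0 hN hq
  exact (std_of_Off (hPD.pow m) (hc.pow hm0) (h m hm) (Ext_pow hE m)).trans (Cj_tau_pow hm0).symm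

/-- a standard `S¹ × S³` is standard off one point -/
theorem offPoint_of_std {M : Mfd4} (hM : InS M) (h : DiffeoS1S3 M) : OffPoint M := by
  obtain ⟨F⟩ := h
  obtain ⟨-, v, -⟩ := hM.circle
  exact ⟨F.toHomeomorph, F.symm (1, v), fun x _ => F.isLocalDiffeomorph x⟩

/-- **the minimal manifold** -/
theorem minimal_ClassS (h : ∃ M : Mfd4, ClassS M ∧ ¬ OffPoint M) :
    ∃ M : Mfd4, ClassS M ∧ ¬ OffPoint M ∧ ProperStd M := by
  obtain ⟨M, hM, hO⟩ := h
  simp only [classS_iff] at hM ⊢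
  obtain ⟨G, T, h1, h2, h3, h4⟩ := exists_star hM hO
  obtain ⟨G', T', h5, h6, h7, h8, h9⟩ := minimal_pos h1 h2 h3 h4
  obtain ⟨N, p, g, i1, i2, i3, i4, i5⟩ := space_good h5 h6
  exact ⟨N, i1, fun hoff => h7 (off_of_offPoint ⟨i2, i3⟩ i4 i5 h6.contr hoff),
    properStd_of ⟨i2, i3⟩ i4 i5 (h6.PD h5 e0_ne_level) h6.contr h8 h9⟩

/-- if the members of both classes with standard proper coverings are standard then all members
are standard off one point -/
theorem off_of_minimal (h : MinimalStd) :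
    (∀ M : Mfd4, InS M → OffPoint M) ∧ ∀ M : Mfd4, InT M → OffPointT M := by
  obtain ⟨hS, hT⟩ := h
  have h1 : ∀ M : Mfd4, InS M → OffPoint M := by
    intro M hM
    by_contra hO
    obtain ⟨N, i1, i2, i3⟩ := minimal_ClassS ⟨M, (classS_iff M).2 hM, hO⟩
    exact i2 (offPoint_of_std ((classS_iff N).1 i1) (hS N i1 i3))
  refine ⟨h1, fun M hM => ?_⟩
  by_contra hO
  obtain ⟨G, T, h2, h3, h4, h5⟩ := exists_star_T hM hO
  obtain ⟨G', T', h6, h7, h8, h9, h10⟩ := minimal_neg h3 h4 h2 h5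
  have hc : Contr G' := h8.contr Rf_r3
  have hall : ∀ m : ℕ, 2 ≤ m → Cj (G' ^ m) (tauL r3 ^ m) := by
    intro m hm
    have hm0 : 0 < m := by omega
    rcases Nat.even_or_odd m with he | ho
    · obtain ⟨T'', h11⟩ := good_even h8 hm0 he
      have h12 : PD 1 (G' ^ m) := h6.pow_even he
      obtain ⟨N', p', g', j1, j2, j3, j4, j5⟩ := space_good (Sm_of_PD h12) h11
      have h13 : Off (G' ^ m) := off_of_offPoint ⟨j2, j3⟩ j4 j5 h11.contr (h1 N' j1)
      have hE : Ext (G' ^ m) := Ext_of_chi_pow (d := 1) h6 (by rw [pow_one, h7])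
        (by simpa using he.two_dvd)
      exact (std_of_Off h12 (hc.pow hm0) h13 hE).trans (Cj_r3_even hm0 he).symm
    · have h12 : PD (-1) (G' ^ m) := h6.pow_odd ho
      exact (std_of_Off_neg h12 (hc.pow hm0) (h10 m ho hm)
        (by rw [chi_pow h6 ho, h7, one_pow])).trans (Cj_r3_odd ho).symm
  obtain ⟨N, p, g, i1, i2, i3, i4, i5⟩ := space_good_neg h6 h8
  have hN : ProperStdT N := by
    intro m N' q hm hN' hq
    exact coverStdT_of ⟨i2, i3⟩ i4 i5 (hall m hm) m N' q dvd_rfl (by omega) hN' hq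
  have h14 := hT N ((classT_iff N).2 i1) hN
  exact h9 (off_of_offPointT ⟨i2, i3⟩ i4 i5 hc (offPointT_of_twisted i1 h14))

/-- **uniqueness** -/
theorem unique_minimal :
    ((∀ M : Mfd4, ClassS M → DiffeoS1S3 M) ∧ ∀ M : Mfd4, ClassT M → TwistedProduct M) ↔
      Schoenflies ∧ MinimalStd := by
  constructor
  · rintro ⟨h1, h2⟩
    exact ⟨(unique_ST.1 ⟨h1, h2⟩).1, fun M hM _ => h1 M hM, fun M hM _ => h2 M hM⟩
  · rintro ⟨h1, h2⟩
    obtain ⟨h3, h4⟩ := off_of_minimal h2
    have h5 : derD = grpD := schoenflies_iff.2 h1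
    have h6 : derP = grpD := pos_neg h5
    refine unique_ST.2 ⟨h1, finS_iff.2 (finite_iff.2 ⟨h3, ?_⟩),
      finT_iff.2 (finite_iff_T.2 ⟨h4, ?_⟩)⟩
    · rw [h5, Subgroup.relIndex_self]
      exact one_ne_zero
    · rw [h6, Subgroup.relIndex_self]
      exact one_ne_zero

end Pool.Agent.HopfFree
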