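import Mathlib

/-!
# A product over a progression

Let `Z * F k * Z⁻¹ = F (k + c)`, `N = m * c`, `F (k + N * n) = F k`, and let the `F k` with
different remainders modulo `N` commute. If `n` and `m` are coprime then the product of `F 0, ...,
F (N - 1)` conjugates `Z ^ n` to the same element as some product of the quotients `F k * (F (k %
N))⁻¹`: the product `Ψ` of the `F (n * c * (i / c) + i % c)`, `i < N`, commutes with `Z ^ n`.
-/

set_option autoImplicit false

namespace Pool.Agent.HopfFree

/-- a product of commuting factors over permuted indices -/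
theorem prod_perm {G : Type*} [Group G] (N : ℕ) (f : ℕ → G) (σ : ℕ → ℕ)
    (hσ : ∀ i < N, σ i < N) (hi : ∀ i < N, ∀ j < N, σ i = σ j → i = j)
    (hc : ∀ i < N, ∀ j < N, Commute (f i) (f j)) :
    ((List.range N).map fun i => f (σ i)).prod = ((List.range N).map f).prod := by
  have hnd : ((List.range N).map σ).Nodup := by
    refine List.Nodup.map_on ?_ List.nodup_range
    intro i h1 j h2 h
    exact hi i (List.mem_range.1 h1) j (List.mem_range.1 h2) h
  have hperm : ((List.range N).map σ).Perm (List.range N) := by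
    refine (List.subperm_of_subset hnd ?_).perm_of_length_le ?_
    · intro a ha
      obtain ⟨i, hi', rfl⟩ := List.mem_map.1 ha
      exact List.mem_range.2 (hσ i (List.mem_range.1 hi'))
    · simp
  have h2 : (fun i => f (σ i)) = f ∘ σ := rfl
  rw [h2, ← List.map_map]
  refine (hperm.map f).prod_eq' ?_
  refine List.pairwise_of_forall_mem_list ?_
  intro a ha b hb
  obtain ⟨k, hk, rfl⟩ := List.mem_map.1 ha
  obtain ⟨l, hl, rfl⟩ := List.mem_map.1 hb
  exact hc k (List.mem_range.1 (hperm.mem_iff.1 hk)) l (List.mem_range.1 (hperm.mem_iff.1 hl))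

/-- a product of products -/
theorem prod_mul {G : Type*} [Group G] (A B : ℕ → G) (l : List ℕ) (hl : l.Nodup)
    (h : ∀ i ∈ l, ∀ j ∈ l, i ≠ j → Commute (B i) (A j)) :
    (l.map fun i => A i * B i).prod = (l.map A).prod * (l.map B).prod := by
  induction l with
  | nil => simp
  | cons a l ih =>
    rw [List.nodup_cons] at hl
    have ih' := ih hl.2 (fun i hi j hj => h i (List.mem_cons_of_mem _ hi) j
      (List.mem_cons_of_mem _ hj))
    have hcomm : Commute (B a) (l.map A).prod := by
      refine Commute.list_prod_right _ _ fun g hg => ?_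
      obtain ⟨j, hj, rfl⟩ := List.mem_map.mp hg
      exact h a List.mem_cons_self j (List.mem_cons_of_mem _ hj) fun h => hl.1 (h ▸ hj)
    rw [List.map_cons, List.map_cons, List.map_cons, List.prod_cons, List.prod_cons,
      List.prod_cons, ih', mul_assoc, ← mul_assoc (B a), hcomm.eq]
    simp only [mul_assoc]

/-- the progression -/
def prog (n c i : ℕ) : ℕ := n * c * (i / c) + i % c

theorem prog_add {n c : ℕ} (hc : 0 < c) (i : ℕ) : prog n c (i + c) = prog n c i + n * c := by
  unfold prog
  rw [Nat.add_div_right _ hc, Nat.add_mod_right]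
  ring

theorem prog_lt {n c j : ℕ} (hj : j < c) : prog n c j = j := by
  unfold prog
  rw [Nat.div_eq_of_lt hj, Nat.mod_eq_of_lt hj, mul_zero, zero_add]

theorem prog_top {n m c j : ℕ} (hj : j < c) : prog n c (m * c + j) = j + m * c * n := by
  have hc : 0 < c := by omega
  unfold prog
  rw [add_comm (m * c) j, Nat.add_mul_div_right _ _ hc, Nat.add_mul_mod_self_right,
    Nat.div_eq_of_lt hj, Nat.mod_eq_of_lt hj]
  ring

/-- the progression hits every remainder once -/
theorem prog_inj {n m c : ℕ} (hc : 0 < c) (hco : n.Coprime m) {i j : ℕ} (hi : i < m * c)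
    (hj : j < m * c) (h : prog n c i % (m * c) = prog n c j % (m * c)) : i = j := by
  unfold prog at h
  have hmod : i % c = j % c := by
    have h1 := congrArg (fun x => x % c) h
    rw [Nat.mod_mod_of_dvd _ (Dvd.intro_left m rfl), Nat.mod_mod_of_dvd _ (Dvd.intro_left m rfl)]
      at h1
    have h2 : ∀ a : ℕ, n * c * a = c * (n * a) := fun a => by ring
    rw [h2, h2, Nat.mul_add_mod, Nat.mul_add_mod, Nat.mod_mod, Nat.mod_mod] at h1
    exact h1
  have hdiv : i / c = j / c := by
    have h1 : n * c * (i / c) + i % c ≡ n * c * (j / c) + i % c [MOD m * c] := by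
      show (n * c * (i / c) + i % c) % (m * c) = _
      rw [h, hmod]
    have h2 : n * c * (i / c) ≡ n * c * (j / c) [MOD m * c] := Nat.ModEq.add_right_cancel' _ h1
    have h3 : c * (n * (i / c)) ≡ c * (n * (j / c)) [MOD c * m] := by
      rw [mul_comm c m]
      convert h2 using 1 <;> ring
    have h4 : n * (i / c) ≡ n * (j / c) [MOD m] := Nat.ModEq.mul_left_cancel' hc.ne' h3
    have h5 : i / c ≡ j / c [MOD m] := Nat.ModEq.cancel_left_of_coprime (by
      rw [Nat.gcd_comm]
      exact hco) h4
    have hi' : i / c < m := Nat.div_lt_of_lt_mul (by rwa [mul_comm] at hi)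
    have hj' : j / c < m := Nat.div_lt_of_lt_mul (by rwa [mul_comm] at hj)
    exact Nat.ModEq.eq_of_lt_of_lt h5 hi' hj'
  rw [← Nat.div_add_mod i c, ← Nat.div_add_mod j c, hmod, hdiv]

/-- **the commutation** -/
theorem conj_pow_prog {G : Type*} [Group G] (P : G → Prop) (h1 : P 1)
    (hmul : ∀ a b, P a → P b → P (a * b)) (F : ℕ → G) (Z : G) {n m c : ℕ} (hm : 0 < m)
    (hc : 0 < c) (hco : n.Coprime m) (hZ : ∀ k, Z * F k * Z⁻¹ = F (k + c))
    (hF : ∀ k, F (k + m * c * n) = F k)
    (hcomm : ∀ k l, k % (m * c) ≠ l % (m * c) → Commute (F k) (F l))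
    (hP : ∀ k, P (F k * (F (k % (m * c)))⁻¹)) :
    ∃ S : G, P S ∧ ((List.range (m * c)).map F).prod * Z ^ n *
      ((List.range (m * c)).map F).prod⁻¹ = S⁻¹ * Z ^ n * S := by
  obtain ⟨N, hN⟩ : ∃ N, N = m * c := ⟨_, rfl⟩
  have hN0 : 0 < N := by rw [hN]; positivity
  have hcN : c ≤ N := by
    rw [hN]
    exact Nat.le_mul_of_pos_left c hm
  rw [← hN] at hF hcomm hP ⊢
  have hinj : ∀ i < N, ∀ j < N, prog n c i % N = prog n c j % N → i = j := fun i hi j hj h => by
    rw [hN] at hi hj h
    exact prog_inj hc hco hi hj h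
  have hZn : ∀ (k i : ℕ), Z ^ k * F i * (Z ^ k)⁻¹ = F (i + k * c) := by
    intro k
    induction k with
    | zero => intro i; simp
    | succ k ih =>
      intro i
      have e1 : Z ^ (k + 1) * F i * (Z ^ (k + 1))⁻¹ = Z * (Z ^ k * F i * (Z ^ k)⁻¹) * Z⁻¹ := by
        rw [pow_succ']
        group
      rw [e1, ih, hZ]
      congr 1
      ring
  obtain ⟨Ψ, hΨ⟩ : ∃ Ψ, Ψ = ((List.range N).map fun i => F (prog n c i)).prod := ⟨_, rfl⟩
  have hcp : ∀ i < N, ∀ j < N, i ≠ j → Commute (F (prog n c i)) (F (prog n c j)) :=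
    fun i hi j hj hij => hcomm _ _ fun h => hij (hinj i hi j hj h)
  have hΨZ : Z ^ n * Ψ * (Z ^ n)⁻¹ = Ψ := by
    have e1 : Z ^ n * Ψ * (Z ^ n)⁻¹ =
        ((List.range N).map fun i => F (prog n c ((i + c) % N))).prod := by
      rw [hΨ, ← MulAut.conj_apply, map_list_prod, List.map_map]
      congr 1
      refine List.map_congr_left fun i hi => ?_
      rw [Function.comp_apply, MulAut.conj_apply, hZn, ← prog_add hc]
      have hi' : i < N := List.mem_range.1 hi
      by_cases h : i + c < N
      · rw [Nat.mod_eq_of_lt h]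
      · obtain ⟨j, hj⟩ : ∃ j, i + c = N + j := ⟨i + c - N, by omega⟩
        have hjc : j < c := by omega
        rw [hj, Nat.add_mod_left, Nat.mod_eq_of_lt (by omega), prog_lt hjc]
        have h2 := hF j
        rw [hN] at h2 ⊢
        rw [prog_top hjc, h2]
    rw [e1, hΨ]
    refine prod_perm N (fun i => F (prog n c i)) (fun i => (i + c) % N)
      (fun i _ => Nat.mod_lt _ hN0) (fun i hi j hj h => ?_) (fun i hi j hj => ?_)
    · have h2 : i + c ≡ j + c [MOD N] := h
      exact Nat.ModEq.eq_of_lt_of_lt (Nat.ModEq.add_right_cancel' c h2) hi hj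
    · by_cases hij : i = j
      · rw [hij]
      · exact hcp i hi j hj hij
  obtain ⟨S, hS⟩ : ∃ S, S = ((List.range N).map fun i => F (prog n c i) *
      (F (prog n c i % N))⁻¹).prod := ⟨_, rfl⟩
  have hPS : P S := by
    rw [hS]
    generalize List.range N = l
    induction l with
    | nil => exact h1
    | cons a l ih =>
      rw [List.map_cons, List.prod_cons]
      exact hmul _ _ (hP _) ih
  have hΨS : Ψ = S * ((List.range N).map F).prod := by
    have e1 : ((List.range N).map F).prod = ((List.range N).map fun i => F (prog n c i % N)).prod :=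
      (prod_perm N F (fun i => prog n c i % N) (fun i _ => Nat.mod_lt _ hN0) hinj
        (fun i hi j hj => by
          by_cases hij : i = j
          · rw [hij]
          · exact hcomm _ _ (by rwa [Nat.mod_eq_of_lt hi, Nat.mod_eq_of_lt hj]))).symm
    rw [e1, hS, hΨ, ← prod_mul _ _ _ List.nodup_range]
    · congr 1
      refine List.map_congr_left fun i _ => ?_
      rw [inv_mul_cancel_right]
    · intro i hi j hj hij
      have hi' := List.mem_range.1 hi
      have hj' := List.mem_range.1 hj
      have hne : prog n c i % N ≠ prog n c j % N := fun h => hij (hinj i hi' j hj' h)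
      refine Commute.mul_right (hcomm _ _ ?_) (Commute.inv_right (hcomm _ _ ?_))
      · rwa [Nat.mod_mod]
      · rwa [Nat.mod_mod, Nat.mod_mod]
  refine ⟨S, hPS, ?_⟩
  have h3 : Z ^ n * Ψ = Ψ * Z ^ n := by
    rw [← mul_inv_eq_iff_eq_mul]
    exact hΨZ
  rw [hΨS] at h3
  obtain ⟨Q, hQ⟩ : ∃ Q, Q = ((List.range N).map F).prod := ⟨_, rfl⟩
  rw [← hQ] at h3 ⊢
  calc Q * Z ^ n * Q⁻¹ = S⁻¹ * (S * Q * Z ^ n) * Q⁻¹ := by group
    _ = S⁻¹ * (Z ^ n * (S * Q)) * Q⁻¹ := by rw [h3]
    _ = S⁻¹ * Z ^ n * S := by group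

end Pool.Agent.HopfFree
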