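import Pool.Agent.HopfTw.Sum
import Pool.Agent.HopfFree.Perm

/-!
# The `n`-th power of `V` is standard if `K` commutes with the `n`-th power of the contraction

`F k = PT k * K * (PT k)⁻¹` for all `k`, `Z = ZT r m`, `N = m * c`, and `conj_pow_prog`: `Z * F k *
Z⁻¹ = F (k + c)`, `PT (k + N * q) = tauL ^ q * PT k`, so `F (k + N * q) = P (tauL ^ q * K * tauL ^
(-q)) P⁻¹` with `P = PT (k % N)`; this is `F k` for `q = n`, is supported in `P '' Cone 1` for all
`q`, and its quotient by `P K P⁻¹` is `P (tauL ^ q * (K * tauL * K⁻¹) ^ (-q)) P⁻¹`, in `Sm`.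
-/

set_option autoImplicit false

open scoped ContDiff Topology
open Set Filter Metric

namespace Pool.Agent.HopfFree

open Pool.Agent.HopfCov hiding pr
open Pool.Agent.HopfFin
open Pool.Agent.HopfTw

/-- the power maps, for any factor `c` -/
private noncomputable def twS (c : ℝ) (x : E4) : E4 := lam (c * Real.logb 2 ‖x‖) x

private theorem norm_twS_Sh (c : ℝ) {x : E4} (hx : x ≠ 0) :
    ‖twS c x‖ = ‖x‖ ^ (1 - c) := by
  have h0 : 0 < ‖x‖ := norm_pos_iff.2 hx
  have h1 : (2 : ℝ) ^ (-(c * Real.logb 2 ‖x‖)) = ‖x‖ ^ (-c) := by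
    rw [show -(c * Real.logb 2 ‖x‖) = Real.logb 2 ‖x‖ * (-c) by ring,
      Real.rpow_mul (by norm_num), Real.rpow_logb (by norm_num) (by norm_num) h0]
  rw [twS, norm_lam, h1]
  rw [show (1 - c) = -c + 1 by ring, Real.rpow_add h0, Real.rpow_one]

private theorem twS_zero_Sh (c : ℝ) : twS c 0 = 0 := (lamL _).map_zero

private theorem twS_ne_Sh (c : ℝ) {x : E4} (hx : x ≠ 0) : twS c x ≠ 0 := by
  rw [← norm_pos_iff, norm_twS_Sh c hx]
  exact Real.rpow_pos_of_pos (norm_pos_iff.2 hx) _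

private theorem twS_twS_Sh {c c' : ℝ} (h : c + c' * (1 - c) = 0) (x : E4) :
    twS c' (twS c x) = x := by
  rcases eq_or_ne x 0 with rfl | hx
  · rw [twS_zero_Sh, twS_zero_Sh]
  have h0 : 0 < ‖x‖ := norm_pos_iff.2 hx
  have h1 : Real.logb 2 ‖twS c x‖ = (1 - c) * Real.logb 2 ‖x‖ := by
    rw [norm_twS_Sh c hx, Real.logb_rpow_eq_mul_logb_of_pos h0]
  rw [twS, h1, twS, ← lam_add]
  have h2 : c' * ((1 - c) * Real.logb 2 ‖x‖) + c * Real.logb 2 ‖x‖ = 0 := by
    linear_combination (Real.logb 2 ‖x‖) * h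
  rw [h2, lam_zero]

private theorem twS_smooth_Sh (c : ℝ) {x : E4} (hx : x ≠ 0) : ContDiffAt ℝ ∞ (twS c) x := by
  have h1 : ContDiffAt ℝ ∞ (fun x : E4 => ‖x‖) x := contDiffAt_norm ℝ hx
  have h2 : ContDiffAt ℝ ∞ (fun x : E4 => c * Real.logb 2 ‖x‖) x := by
    have h3 : ContDiffAt ℝ ∞ (fun x : E4 => Real.log ‖x‖) x := h1.log (norm_ne_zero_iff.2 hx)
    exact contDiffAt_const.mul (h3.div_const _)
  exact ContDiffAt.comp x (g := fun p : ℝ × E4 => lam p.1 p.2)
    (f := fun x : E4 => (c * Real.logb 2 ‖x‖, x)) contDiff_lam.contDiffAt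
    (h2.prodMk contDiffAt_id)

private theorem twS_cont_Sh {c : ℝ} (hc : c < 1) : Continuous (twS c) := by
  rw [continuous_iff_continuousAt]
  intro x
  rcases eq_or_ne x 0 with rfl | hx
  · have h1 : ∀ x : E4, ‖twS c x‖ ≤ ‖x‖ ^ (1 - c) := by
      intro x
      rcases eq_or_ne x 0 with rfl | hx
      · rw [twS_zero_Sh, norm_zero]
        exact Real.rpow_nonneg le_rfl _
      · exact (norm_twS_Sh c hx).le
    have h2 : Tendsto (fun x : E4 => ‖x‖ ^ (1 - c)) (𝓝 0) (𝓝 0) := by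
      have h3 : ContinuousAt (fun x : E4 => ‖x‖ ^ (1 - c)) 0 :=
        continuous_norm.continuousAt.rpow_const (Or.inr (by linarith))
      have h4 := h3.tendsto
      rwa [norm_zero, Real.zero_rpow (by linarith)] at h4
    have h5 := squeeze_zero_norm h1 h2
    rw [ContinuousAt, twS_zero_Sh]
    exact h5
  · exact (twS_smooth_Sh c hx).continuousAt


/-- the power maps conjugate the roots of the model contraction to the model contraction -/
theorem tn_mk_r (n : ℕ) (hn : 0 < n) : ∃ T : E4 ≃ₜ E4, Sm T ∧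
    T * lamH (1 / n) = tau * T ∧ (∀ t : ℝ, 0 < t → T (t • e0) = t ^ n • e0) ∧
    ∀ r : E4 ≃ₗᵢ[ℝ] E4, Rf r → ∀ x, T (r x) = r (T x) := by
  have hn' : (0 : ℝ) < n := by exact_mod_cast hn
  obtain ⟨c, hc⟩ : ∃ c : ℝ, c = 1 - n := ⟨_, rfl⟩
  obtain ⟨c', hc'⟩ : ∃ c' : ℝ, c' = 1 - 1 / n := ⟨_, rfl⟩
  have e1 : c + c' * (1 - c) = 0 := by
    rw [hc, hc']
    field_simp
    ring
  have e2 : c' + c * (1 - c') = 0 := by
    rw [hc, hc']
    field_simp
    ring
  have hc1 : c < 1 := by rw [hc]; linarith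
  have hc1' : c' < 1 := by
    rw [hc']
    have : 0 < 1 / (n : ℝ) := by positivity
    linarith
  let T : E4 ≃ₜ E4 :=
    { toFun := twS c
      invFun := twS c'
      left_inv := twS_twS_Sh e1
      right_inv := twS_twS_Sh e2
      continuous_toFun := twS_cont_Sh hc1
      continuous_invFun := twS_cont_Sh hc1' }
  refine ⟨T, ⟨twS_zero_Sh c, fun x hx => ⟨twS_smooth_Sh c hx, ?_⟩⟩, ?_, ?_, fun r hr x => ?_⟩
  · -- the derivative is invertible
    have hd1 : HasFDerivAt (twS c) (fderiv ℝ (twS c) x) x :=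
      ((twS_smooth_Sh c hx).differentiableAt (by simp)).hasFDerivAt
    have hd2 : HasFDerivAt (twS c') (fderiv ℝ (twS c') (twS c x)) (twS c x) :=
      ((twS_smooth_Sh c' (twS_ne_Sh c hx)).differentiableAt (by simp)).hasFDerivAt
    have hd3 := hd2.comp x hd1
    have hid : twS c' ∘ twS c = fun y => y := by
      funext y
      exact twS_twS_Sh e1 y
    rw [hid] at hd3
    have h4 := hd3.fderiv
    have h5 : (1 : ℝ) = (fderiv ℝ (twS c') (twS c x)).det * (fderiv ℝ (twS c) x).det := by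
      rw [← det_comp_clm, ← h4, fderiv_fun_id]
      simp [ContinuousLinearMap.det]
    exact right_ne_zero_of_mul_eq_one h5.symm
  · apply Homeomorph.ext
    intro x
    show twS c (lam (1 / n) x) = (2⁻¹ : ℝ) • twS c x
    rcases eq_or_ne x 0 with rfl | hx
    · have h0 : lam (1 / n) (0 : E4) = 0 := (lamL _).map_zero
      rw [h0, twS_zero_Sh, smul_zero]
    have h0 : 0 < ‖x‖ := norm_pos_iff.2 hx
    have h1 : Real.logb 2 ‖lam (1 / n) x‖ = -(1 / n) + Real.logb 2 ‖x‖ := by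
      rw [norm_lam, Real.logb_mul (Real.rpow_pos_of_pos (by norm_num) _).ne' h0.ne',
        Real.logb_rpow (by norm_num) (by norm_num)]
    rw [← lam_one, twS, h1, twS, ← lam_add, ← lam_add]
    congr 1
    rw [hc]
    field_simp
    ring
  · intro t ht
    show twS c (t • e0) = t ^ n • e0
    have h1 : ‖(t • e0 : E4)‖ = t := by
      rw [norm_smul, norm_e0, mul_one, Real.norm_eq_abs, abs_of_pos ht]
    have h2 : (2 : ℝ) ^ (-(c * Real.logb 2 t)) = t ^ (-c) := by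
      rw [show -(c * Real.logb 2 t) = Real.logb 2 t * (-c) by ring,
        Real.rpow_mul (by norm_num), Real.rpow_logb (by norm_num) (by norm_num) ht]
    rw [twS, h1, lam_smul_e0, h2]
    congr 1
    have h3 : t ^ (-c) * t = t ^ (-c + 1) := by rw [Real.rpow_add ht, Real.rpow_one]
    rw [h3, hc, show -(1 - (n : ℝ)) + 1 = (n : ℝ) by ring, Real.rpow_natCast]
  · show twS c (r x) = r (twS c x)
    rw [twS, twS, r.norm_map]
    exact hr.lam _ x

/-- the root of the model contraction is conjugate to the model contraction -/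
theorem Cj_ZT {r : E4 ≃ₗᵢ[ℝ] E4} (hr : Rf r) {m : ℕ} (hm : 0 < m) :
    Cj (ZT r m) (tauL r) := by
  obtain ⟨T, hT, hTc, -, hTr⟩ := tn_mk_r m hm
  refine ⟨T, hT, ?_⟩
  have h1 : T * ZT r m = (T * lamH (1 / m)) * linH r := by
    unfold ZT
    group
  rw [h1, hTc]
  refine Homeomorph.ext fun x => ?_
  rw [mul_apply', mul_apply', mul_apply', linH_apply, hTr r hr, tauL_apply, tau_apply]

theorem linH_odd {r : E4 ≃ₗᵢ[ℝ] E4} (hr : Rf r) {m : ℕ} (hm : Odd m) : linH r ^ m = linH r := by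
  obtain ⟨k, rfl⟩ := hm
  rw [pow_succ, pow_mul, pow_two, linH_sq hr, one_pow, one_mul]

theorem tauL_pow {r : E4 ≃ₗᵢ[ℝ] E4} (hr : Rf r) (q : ℕ) :
    tauL r ^ q = lamH q * linH r ^ q := by
  have h0 : tauL r = lamH 1 * linH r := Homeomorph.ext fun x => by
    rw [mul_apply', linH_apply, lamH_apply, lam_one, tauL_apply]
  have h : Commute (lamH 1) (linH r) := (linH_lamH hr _).symm
  rw [h0, h.mul_pow, lamH_pow, mul_one]

/-- the placements beyond the first turn -/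
theorem PT_add {r : E4 ≃ₗᵢ[ℝ] E4} (hr : Rf r) {m c : ℕ} (hm : Odd m) (hc : 0 < c) (k q : ℕ) :
    PT r (m * c) c (k + m * c * q) = tauL r ^ q * PT r (m * c) c k := by
  have h1 : (k + m * c * q) / c + (k + m * c * q) % c = m * q + (k / c + k % c) := by
    have e : k + m * c * q = k + m * q * c := by ring
    rw [e, Nat.add_mul_div_right _ _ hc, Nat.add_mul_mod_self_right]
    ring
  have hm' : (m : ℝ) ≠ 0 := by
    have := hm.pos
    positivity
  have hc' : (c : ℝ) ≠ 0 := by positivity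
  have h2 : (((k + m * c * q : ℕ) : ℝ) / ((m * c : ℕ) : ℝ)) = q + (k : ℝ) / ((m * c : ℕ) : ℝ) := by
    push_cast
    field_simp
    ring
  have h3 : linH r ^ q * lamH ((k : ℝ) / ((m * c : ℕ) : ℝ)) =
      lamH ((k : ℝ) / ((m * c : ℕ) : ℝ)) * linH r ^ q :=
    ((show Commute (linH r) (lamH _) from linH_lamH hr _).pow_left q).eq
  rw [PT, PT, h1, h2, lamH_add, pow_add, pow_mul, linH_odd hr hm, tauL_pow hr]
  calc lamH q * lamH ((k : ℝ) / ((m * c : ℕ) : ℝ)) * (linH r ^ q * linH r ^ (k / c + k % c)) *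
        plH (HopfFin.rad (m * c))
      = lamH q * (lamH ((k : ℝ) / ((m * c : ℕ) : ℝ)) * linH r ^ q) *
        linH r ^ (k / c + k % c) * plH (HopfFin.rad (m * c)) := by
        simp only [mul_assoc]
    _ = _ := by
        rw [← h3]
        simp only [mul_assoc]

/-- **the power of `V`** -/
theorem Cj_VT_pow {r : E4 ≃ₗᵢ[ℝ] E4} (hr : Rf r) {K : E4 ≃ₜ E4} (h0 : K 0 = 0)
    (hK : Supp K (Cone 1)) {n m c : ℕ} (hm : Odd m) (hc : 0 < c) (hco : n.Coprime m)
    (hKn : K * tauL r ^ n = tauL r ^ n * K) (hg : Sm (K * tauL r * K⁻¹)) :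
    Cj (VT r K m c ^ n) (tauL r ^ n) := by
  obtain ⟨N, hN⟩ : ∃ N, N = m * c := ⟨_, rfl⟩
  have hN0 : 0 < N := by rw [hN]; exact Nat.mul_pos hm.pos hc
  obtain ⟨F, hF⟩ : ∃ F : ℕ → (E4 ≃ₜ E4), ∀ k, F k = PT r N c k * K * (PT r N c k)⁻¹ :=
    ⟨fun k => PT r N c k * K * (PT r N c k)⁻¹, fun _ => rfl⟩
  have hcP : ∀ k q : ℕ, PT r N c k * tauL r ^ q = tauL r ^ q * PT r N c k := fun k q =>
    ((show Commute (PT r N c k) (tauL r) from (PT_pr hr N c k).comm).pow_right q).eq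
  have hFq : ∀ k q : ℕ, F (k + N * q) =
      PT r N c k * (tauL r ^ q * K * (tauL r ^ q)⁻¹) * (PT r N c k)⁻¹ := by
    intro k q
    rw [hF, hN, PT_add hr hm hc, ← hN, ← hcP]
    group
  have hFr : ∀ k : ℕ, F k = PT r N c (k % N) *
      (tauL r ^ (k / N) * K * (tauL r ^ (k / N))⁻¹) * (PT r N c (k % N))⁻¹ := by
    intro k
    rw [← hFq, Nat.mod_add_div]
  have hP0 : ∀ k, PT r N c k 0 = 0 := fun k => (PT_pr hr N c k).sm.1
  have ht0 : ∀ q : ℕ, (tauL r ^ q : E4 ≃ₜ E4) 0 = 0 := fun q => ((Sm_tauL r).pow q).1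
  have hF0 : ∀ k, F k 0 = 0 := by
    intro k
    rw [hF, mul_apply', mul_apply', (PT_pr hr N c k).inv.sm.1, h0, hP0]
  have hcone : ∀ (q : ℕ) {x : E4}, x ∈ Cone 1 → (tauL r ^ q : E4 ≃ₜ E4) x ∈ Cone 1 := by
    intro q
    induction q with
    | zero => intro x hx; exact hx
    | succ q ih =>
      intro x hx
      rw [pow_succ', mul_apply', tauL_apply]
      exact Cone_smul (by norm_num) (hr.mem_Cone (ih hx))
  have hsup : ∀ k, Supp (F k) (PT r N c (k % N) '' Cone 1) := by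
    intro k
    rw [hFr]
    refine Supp.conj ((hK.conj (tauL r ^ (k / N))).mono ?_) _
    rintro _ ⟨y, hy, rfl⟩
    exact hcone _ hy
  have hcomm : ∀ k l, k % N ≠ l % N → Commute (F k) (F l) := by
    intro k l hkl
    refine (hsup k).commute (hsup l) (hF0 k) (hF0 l) ?_
    rintro _ ⟨y, hy, rfl⟩ ⟨z, hz, hyz⟩
    rw [PT_disjoint hr hN0 c c (Nat.mod_lt _ hN0) (Nat.mod_lt _ hN0) hkl hy hz hyz.symm, hP0]
  have hZ : ∀ k, ZT r m * F k * (ZT r m)⁻¹ = F (k + c) := by
    intro k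
    have h1 : ZT r m * PT r N c k = PT r N c (k + c) := by
      rw [hN]
      exact ZT_PT hr hc k hm.pos
    rw [hF, hF, ← h1]
    group
  have hFn : ∀ k, F (k + N * n) = F k := by
    intro k
    rw [hFq, ← hKn, mul_inv_cancel_right, hF]
  have hPF : ∀ k, Sm (F k * (F (k % N))⁻¹) := by
    intro k
    have h1 : ∀ q : ℕ, tauL r ^ q * K * (tauL r ^ q)⁻¹ * K⁻¹ =
        tauL r ^ q * ((K * tauL r * K⁻¹) ^ q)⁻¹ := by
      intro q
      rw [conj_pow]
      group
    have h2 : F k * (F (k % N))⁻¹ = PT r N c (k % N) *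
        (tauL r ^ (k / N) * ((K * tauL r * K⁻¹) ^ (k / N))⁻¹) * (PT r N c (k % N))⁻¹ := by
      rw [← h1, hFr k, hF (k % N)]
      group
    rw [h2]
    exact ((PT_pr hr N c _).sm.mul (((Sm_tauL r).pow _).mul (hg.pow _).inv)).mul
      (PT_pr hr N c _).sm.inv
  rw [hN] at hcomm hFn hPF
  obtain ⟨S, hS, hSe⟩ := conj_pow_prog Sm Sm.one (fun a b => Sm.mul) F (ZT r m) (n := n)
    hm.pos hc hco hZ hFn hcomm hPF
  have hKT : KT r K (m * c) c = ((List.range (m * c)).map F).prod := by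
    unfold KT
    congr 1
    exact List.map_congr_left fun k _ => by rw [hF, hN]
  have h5 : Cj (VT r K m c ^ n) (ZT r m ^ n) := by
    refine ⟨S, hS, ?_⟩
    rw [VT, conj_pow, hKT, hSe]
    group
  exact h5.trans ((Cj_ZT hr hm.pos).pow n)

end Pool.Agent.HopfFree
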