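import Pool.Agent.HopfEnd.StatementFar

/-!
# Coverings whose number of sheets is a multiple of a given number
-/

set_option autoImplicit false

open scoped ContDiff Topology Manifold
open Set Filter Metric

namespace Pool.Agent.HopfCov.Smooth

/-- all closed connected coverings of `M` with `m` sheets, `m` a positive multiple of `n`, are
diffeomorphic to `S¹ × S³` -/
def CoverStd (n : ℕ) (M : Mfd4) : Prop :=
  ∀ (m : ℕ) (N : Mfd4) (q : N → M), n ∣ m → 0 < m → Closed N → Cover m q → DiffeoS1S3 N

/-- all closed connected coverings of `M` with `m` sheets, `m` a positive multiple of `n`, are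
standard: the twisted product if `m` is odd, `S¹ × S³` if `m` is even -/
def CoverStdT (n : ℕ) (M : Mfd4) : Prop :=
  ∀ (m : ℕ) (N : Mfd4) (q : N → M), n ∣ m → 0 < m → Closed N → Cover m q →
    (Even m → DiffeoS1S3 N) ∧ (Odd m → TwistedProduct N)

/-- the members of the two classes whose coverings with `n` sheets are standard are standard -/
def FreeStd (n : ℕ) : Prop :=
  (∀ M : Mfd4, ClassS M → CoverStd n M → DiffeoS1S3 M) ∧
    ∀ M : Mfd4, ClassT M → CoverStdT n M → TwistedProduct M

end Pool.Agent.HopfCov.Smooth
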