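import Pool.Agent.HopfFree.StatementFree

/-!
# Manifolds all of whose proper coverings are standard
-/

set_option autoImplicit false

open scoped ContDiff Topology Manifold
open Set Filter Metric

namespace Pool.Agent.HopfCov.Smooth

/-- all closed connected coverings of `M` with at least two sheets are diffeomorphic to
`S¹ × S³` -/
def ProperStd (M : Mfd4) : Prop :=
  ∀ (m : ℕ) (N : Mfd4) (q : N → M), 2 ≤ m → Closed N → Cover m q → DiffeoS1S3 N

/-- all closed connected coverings of `M` with at least two sheets are standard: the twisted
product if the number of sheets is odd, `S¹ × S³` if it is even -/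
def ProperStdT (M : Mfd4) : Prop :=
  ∀ (m : ℕ) (N : Mfd4) (q : N → M), 2 ≤ m → Closed N → Cover m q →
    (Even m → DiffeoS1S3 N) ∧ (Odd m → TwistedProduct N)

/-- the members of the two classes all of whose coverings with at least two sheets are standard
are standard -/
def MinimalStd : Prop :=
  (∀ M : Mfd4, ClassS M → ProperStd M → DiffeoS1S3 M) ∧
    ∀ M : Mfd4, ClassT M → ProperStdT M → TwistedProduct M

end Pool.Agent.HopfCov.Smooth
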