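import Pool.Agent.HopfEnd.StatementFar

/-!
# Manifolds whose coverings with a given number of sheets are standard
-/

set_option autoImplicit false

open scoped ContDiff Topology Manifold
open Set Filter Metric

namespace Pool.Agent.HopfCov.Smooth

/-- the closed connected coverings of `M` with `m` sheets are diffeomorphic to `S¹ × S³` -/
def StdAt (m : ℕ) (M : Mfd4) : Prop :=
  ∀ (N : Mfd4) (q : N → M), Closed N → Cover m q → DiffeoS1S3 N

/-- the closed connected coverings of `M` with `m` sheets are diffeomorphic to `S¹ × S³` if `m` is
even, to the twisted product if `m` is odd -/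
def StdAtT (m : ℕ) (M : Mfd4) : Prop :=
  ∀ (N : Mfd4) (q : N → M), Closed N → Cover m q →
    (Even m → DiffeoS1S3 N) ∧ (Odd m → TwistedProduct N)

end Pool.Agent.HopfCov.Smooth
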