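import Pool.Agent.HopfFree.StatementStd
import Pool.Agent.HopfFree.MinMfd

/-!
# The theorems in terms of `StdAt`
-/

set_option autoImplicit false

open scoped ContDiff Topology Manifold
open Set Filter Metric

namespace Pool.Agent.HopfFree

open Pool.Agent.HopfCov
open Pool.Agent.HopfFin hiding pr
open Pool.Agent.HopfTw
open Pool.Agent.HopfCov.Smooth
open Pool.Agent.HopfEnd

theorem properStd_iff {M : Mfd4} : ProperStd M ↔ ∀ m ≥ 2, StdAt m M :=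
  ⟨fun h m hm N q hN hq => h m N q hm hN hq, fun h m N q hm hN hq => h m hm N q hN hq⟩

theorem properStdT_iff {M : Mfd4} : ProperStdT M ↔ ∀ m ≥ 2, StdAtT m M :=
  ⟨fun h m hm N q hN hq => h m N q hm hN hq, fun h m N q hm hN hq => h m hm N q hN hq⟩

theorem stdAt_of {M : Mfd4} {n : ℕ} (h1 : VirtuallyStandard M) (h2 : CoverStd n M) :
    ∃ m₀, ∀ m > 0, m₀ ≤ m ∨ n ∣ m → StdAt m M := by
  obtain ⟨m₀, h1⟩ := h1
  refine ⟨m₀, fun m hm h N q hN hq => ?_⟩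
  rcases h with h | h
  · exact h1 m N q h hN hq
  · exact h2 m N q h hm hN hq

theorem stdAtT_of {M : Mfd4} {n : ℕ} (h1 : VirtuallyStandardT M) (h2 : CoverStdT n M) :
    ∃ m₀, ∀ m > 0, m₀ ≤ m ∨ n ∣ m → StdAtT m M := by
  obtain ⟨m₀, h1⟩ := h1
  refine ⟨m₀, fun m hm h N q hN hq => ?_⟩
  rcases h with h | h
  · exact h1 m N q h hN hq
  · exact h2 m N q h hm hN hq

/-- **the theorem for `S¹ × S³`** -/
theorem exotic_S (h : ∃ M : Mfd4, ClassS M ∧ ¬ OffPoint M) :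
    (∃ M : Mfd4, ClassS M ∧ ¬ OffPoint M ∧ ∀ m ≥ 2, StdAt m M) ∧
    ∀ n ≥ 2, ∃ N : ℕ → Mfd4, (∀ k, ClassS (N k) ∧ ¬ OffPoint (N k) ∧
      ∃ m₀, ∀ m > 0, m₀ ≤ m ∨ n ∣ m → StdAt m (N k)) ∧
      ∀ i j, i ≠ j → ¬ Diffeomorphic (N i) (N j) := by
  constructor
  · obtain ⟨M, h1, h2, h3⟩ := minimal_ClassS h
    exact ⟨M, h1, h2, properStd_iff.1 h3⟩
  · intro n hn
    obtain ⟨N, h1, h2⟩ := free_ClassS (n := n) (by omega) h
    exact ⟨N, fun k => ⟨(h1 k).1, (h1 k).2.1, stdAt_of (h1 k).2.2.1 (h1 k).2.2.2⟩, h2⟩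

/-- the minimal manifold for the twisted product -/
theorem minimal_ClassT (h : ∃ M : Mfd4, ClassT M ∧ ¬ OffPointT M) :
    ∃ M : Mfd4, ClassT M ∧ ¬ OffPointT M ∧ ∀ m ≥ 2, Odd m → StdAtT m M := by
  obtain ⟨M, hM, hO⟩ := h
  rw [classT_iff] at hM
  obtain ⟨G, T, h2, h3, h4, h5⟩ := exists_star_T hM hO
  obtain ⟨G', T', h6, h7, h8, h9, h10⟩ := minimal_neg h3 h4 h2 h5
  have hc : Contr G' := h8.contr Rf_r3
  obtain ⟨N, p, g, i1, i2, i3, i4, i5⟩ := space_good_neg h6 h8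
  refine ⟨N, (classT_iff N).2 i1, fun hoff => h9 (off_of_offPointT ⟨i2, i3⟩ i4 i5 hc hoff),
    fun m hm ho N' q hN' hq => ?_⟩
  have hm0 : 0 < m := by omega
  refine coverStdT_of ⟨i2, i3⟩ i4 i5 ?_ m N' q dvd_rfl hm0 hN' hq
  exact (std_of_Off_neg (h6.pow_odd ho) (hc.pow hm0) (h10 m ho hm)
    (by rw [chi_pow h6 ho, h7, one_pow])).trans (Cj_r3_odd ho).symm

/-- **the theorem for the twisted product** -/
theorem exotic_T (h : ∃ M : Mfd4, ClassT M ∧ ¬ OffPointT M) :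
    (∃ M : Mfd4, ClassT M ∧ ¬ OffPointT M ∧ ∀ m ≥ 2, Odd m → StdAtT m M) ∧
    ∀ n ≥ 2, Odd n → ∃ N : ℕ → Mfd4, (∀ k, ClassT (N k) ∧ ¬ OffPointT (N k) ∧
      ∃ m₀, ∀ m > 0, m₀ ≤ m ∨ n ∣ m → StdAtT m (N k)) ∧
      ∀ i j, i ≠ j → ¬ Diffeomorphic (N i) (N j) := by
  refine ⟨minimal_ClassT h, fun n hn ho => ?_⟩
  obtain ⟨N, h1, h2⟩ := free_ClassT (n := n) (by omega) ho h
  exact ⟨N, fun k => ⟨(h1 k).1, (h1 k).2.1, stdAtT_of (h1 k).2.2.1 (h1 k).2.2.2⟩, h2⟩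

/-- **uniqueness** -/
theorem unique_std :
    ((∀ M : Mfd4, ClassS M → DiffeoS1S3 M) ∧ ∀ M : Mfd4, ClassT M → TwistedProduct M) ↔
      Schoenflies ∧ (∀ M : Mfd4, ClassS M → (∀ m ≥ 2, StdAt m M) → DiffeoS1S3 M) ∧
        ∀ M : Mfd4, ClassT M → (∀ m ≥ 2, StdAtT m M) → TwistedProduct M := by
  rw [unique_minimal]
  unfold MinimalStd
  simp only [properStd_iff, properStdT_iff]

end Pool.Agent.HopfFree
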