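import Pool.Agent.HopfFree.Cov
import Pool.Agent.HopfFree.MainP
import Pool.Agent.HopfFin.FinalPlus
import Pool.Agent.HopfTw.FinalPlus

/-!
# Manifolds whose coverings with `n` sheets are standard
-/

set_option autoImplicit false

open scoped ContDiff Topology Manifold
open Set Filter Metric

namespace Pool.Agent.HopfFree

open Pool.Agent.HopfCov
open Pool.Agent.HopfFin hiding pr
open Pool.Agent.HopfTw
open Pool.Agent.HopfCov.Smooth

/-- **Theorem F++** -/
theorem free_S {M : Mfd4} (hM : InS M) (hO : ¬ OffPoint M) {n : ℕ} (hn : 1 < n) :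
    ∃ N : ℕ → Mfd4, (∀ k, InS (N k) ∧ ¬ OffPoint (N k) ∧ VirtuallyStandard (N k) ∧
      CoverStd n (N k)) ∧ ∀ i j, i ≠ j → ¬ Diffeomorphic (N i) (N j) := by
  obtain ⟨G, T, h1, h2, h3, h4⟩ := exists_star hM hO
  obtain ⟨V, h8, h9⟩ := main_n_pos h1 h2 h3 h4 hn
  choose T' h10 using fun k => (h8 k).2.2.2.1
  choose N q γ i1 i2 i3 i4 i5 using fun k => space_good (h8 k).1 (h10 k)
  refine ⟨N, fun k => ⟨i1 k, fun hoff => (h8 k).2.2.1 (off_of_offPoint ⟨i2 k, i3 k⟩ (i4 k) (i5 k)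
    (h10 k).contr hoff), virtuallyStandard_of ⟨i2 k, i3 k⟩ (i4 k) (i5 k)
    ((h10 k).PD (h8 k).1 e0_ne_level) (h10 k).contr (h8 k).2.1,
    coverStd_of ⟨i2 k, i3 k⟩ (i4 k) (i5 k) (h8 k).2.2.2.2⟩, fun i j hij hd => h9 i j hij
      (cjV_of_diffeo ⟨i2 i, i3 i⟩ ⟨i2 j, i3 j⟩ (i4 i) (i4 j) (i5 i) (i5 j) (h10 i).contr
        (h10 j).contr hd)⟩

/-- **Theorem F++**, twisted product -/
theorem free_T {M : Mfd4} (hM : InT M) (hO : ¬ OffPointT M) {n : ℕ} (hn : 1 < n) (ho : Odd n) :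
    ∃ N : ℕ → Mfd4, (∀ k, InT (N k) ∧ ¬ OffPointT (N k) ∧ VirtuallyStandardT (N k) ∧
      CoverStdT n (N k)) ∧ ∀ i j, i ≠ j → ¬ Diffeomorphic (N i) (N j) := by
  obtain ⟨G, T, h1, h2, h3, h4⟩ := exists_star_T hM hO
  obtain ⟨V, h8, h9⟩ := main_n_neg h2 h3 h1 h4 ho hn
  choose T' h10 using fun k => (h8 k).2.2.2.1
  choose N q γ i1 i2 i3 i4 i5 using fun k => space_good_neg (h8 k).1 (h10 k)
  refine ⟨N, fun k => ⟨i1 k, fun hoff => (h8 k).2.2.1 (off_of_offPointT ⟨i2 k, i3 k⟩ (i4 k) (i5 k)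
    ((h10 k).contr Rf_r3) hoff), virtuallyStandardT_of ⟨i2 k, i3 k⟩ (i4 k) (i5 k)
    (h8 k).1 ((h10 k).contr Rf_r3) ((h8 k).2.1 _),
    coverStdT_of ⟨i2 k, i3 k⟩ (i4 k) (i5 k) (h8 k).2.2.2.2⟩, fun i j hij hd => h9 i j hij
      (cjV_of_diffeo ⟨i2 i, i3 i⟩ ⟨i2 j, i3 j⟩ (i4 i) (i4 j) (i5 i) (i5 j)
        ((h10 i).contr Rf_r3) ((h10 j).contr Rf_r3) hd)⟩

/-! ### congruences modulo `[D, D]` and `[P, P]` -/

/-- powers of congruent elements are congruent modulo a subgroup which is normalised by `h` -/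
theorem pow_cong {A : Type*} [Group A] (B : Subgroup A) {g h : A}
    (hn : ∀ b ∈ B, h * b * h⁻¹ ∈ B) (hgh : g * h⁻¹ ∈ B) (m : ℕ) : g ^ m * (h ^ m)⁻¹ ∈ B := by
  induction m with
  | zero => simpa using B.one_mem
  | succ m ih =>
    have e : g ^ (m + 1) * (h ^ (m + 1))⁻¹ = (g * h⁻¹) * (h * (g ^ m * (h ^ m)⁻¹) * h⁻¹) := by
      rw [pow_succ' g, pow_succ' h]
      group
    rw [e]
    exact B.mul_mem hgh (hn _ ih)

theorem conj_derD {h b : Homeo4} (hh : h ∈ grpD) (hb : b ∈ derD) : h * b * h⁻¹ ∈ derD := by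
  have hb' : b ∈ grpD := (derD_iff.1 hb).1
  have h1 : h * b * h⁻¹ * b⁻¹ ∈ derD := Subgroup.commutator_mem_commutator hh hb'
  have h2 := derD.mul_mem h1 hb
  rwa [inv_mul_cancel_right] at h2

theorem conj_derP {h b : Homeo4} (hh : h ∈ grpP) (hb : b ∈ derP) : h * b * h⁻¹ ∈ derP := by
  have h0 : groupD ≤ groupP := by
    rw [groupD_eq, groupP_eq]
    exact DD_le_PP
  have hb' : b ∈ grpP := h0 (show b ∈ groupD from comm_le_D hb)
  have h1 : h * b * h⁻¹ * b⁻¹ ∈ derP := Subgroup.commutator_mem_commutator hh hb'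
  have h2 := derP.mul_mem h1 hb
  rwa [inv_mul_cancel_right] at h2

/-- **cancellation of the number `n` of sheets**: the members of `S` whose coverings with `n`
sheets are standard are standard if and only if all members of `S` are standard off one point and
`D / [D, D]` contains no element of order dividing `n` -/
theorem cancel_S {n : ℕ} (hn : 1 < n) : (∀ M : Mfd4, InS M → CoverStd n M → DiffeoS1S3 M) ↔
    (∀ M : Mfd4, InS M → OffPoint M) ∧ ∀ g ∈ grpD, g ^ n ∈ derD → g ∈ derD := by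
  have hn0 : 0 < n := by omega
  constructor
  · intro h
    refine ⟨fun M hM => ?_, fun g hg hgn => ?_⟩
    · by_contra hO
      obtain ⟨N, h1, -⟩ := free_S hM hO hn
      obtain ⟨h2, h3, -, h4⟩ := h1 0
      obtain ⟨F⟩ := h _ h2 h4
      obtain ⟨-, v, -⟩ := h2.circle
      exact h3 ⟨F.toHomeomorph, F.symm (1, v), fun x _ => F.isLocalDiffeomorph x⟩
    · have hgP : g ∈ grpP := mem_groupP.2 (Or.inl (mem_groupD.1 hg))
      obtain ⟨M, p, G, h1, h2⟩ := realise hgP
      have hGD : G ∈ grpD := by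
        have h3 := grpD.mul_mem (derD_iff.1 h2).1 hg
        rwa [inv_mul_cancel_right] at h3
      obtain ⟨X, hX⟩ := exists_S1S3
      have hS : InS M := inS_of_offPoint hX ((almost_pos hX).2 ⟨p, G, h1, hGD⟩)
      have hC : CoverStd n M := by
        intro m N q hnm hm hN hq
        obtain ⟨p', h3, -⟩ := cover_final h1 hm hN hq
        rw [std_final h3]
        obtain ⟨k, rfl⟩ := hnm
        have h4 := pow_cong derD (fun b hb => conj_derD hg hb) h2 (n * k)
        have h5 : g ^ (n * k) ∈ derD := by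
          rw [pow_mul]
          exact derD.pow_mem hgn k
        have h6 := derD.mul_mem h4 h5
        rwa [inv_mul_cancel_right] at h6
      have h7 := (std_final h1).1 (h M hS hC)
      have h8 := derD.mul_mem (derD.inv_mem h2) h7
      have e : (G * g⁻¹)⁻¹ * G = g := by group
      rwa [e] at h8
  · rintro ⟨hO, ht⟩ M hM hC
    obtain ⟨X, hX, hMX⟩ := almost_of_offPoint (hO M hM)
    obtain ⟨p, G, h1, h2⟩ := (almost_pos hX).1 hMX
    obtain ⟨N, q, hN, hq⟩ := exists_power h1 hn0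
    obtain ⟨p', h3, -⟩ := cover_final h1 hn0 hN hq
    have h4 := (std_final h3).1 (hC n N q dvd_rfl hn0 hN hq)
    exact (std_final h1).2 (ht G h2 h4)

theorem mem_derP {g : E4 ≃ₜ E4} (hg : PD 1 g) :
    (show Homeo4 from g) ∈ derP ↔ pr (cls g hg) = 1 := by
  have h1 : (derP : Subgroup Homeo4) = (⁅PP, PP⁆ : Subgroup (E4 ≃ₜ E4)) := by
    rw [derP_eq, groupP_eq]
  rw [h1]
  show g ∈ (⁅PP, PP⁆ : Subgroup (E4 ≃ₜ E4)) ↔ _
  rw [commutator_PP, mem_CC]
  exact ⟨fun ⟨_, h⟩ => h, fun h => ⟨hg, h⟩⟩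

theorem mem_derP_pow {g : E4 ≃ₜ E4} (hg : PD 1 g) (n : ℕ) :
    (show Homeo4 from g ^ n) ∈ derP ↔ pr (cls g hg) ^ n = 1 := by
  rw [mem_derP (hg.pow n), cls_pow hg, map_pow]

/-- the same for the twisted product -/
theorem cancel_T {n : ℕ} (hn : 1 < n) (ho : Odd n) :
    (∀ M : Mfd4, InT M → CoverStdT n M → TwistedProduct M) ↔
      (∀ M : Mfd4, InT M → OffPointT M) ∧ ∀ g ∈ grpD, g ^ n ∈ derP → g ∈ derP := by
  have hn0 : 0 < n := by omega
  have hrho : PD (-1) (show E4 ≃ₜ E4 from rho) := by rw [rho_eq]; exact PD_TT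
  constructor
  · intro h
    refine ⟨fun M hM => ?_, fun g hg hgn => ?_⟩
    · by_contra hO
      obtain ⟨N, h1, -⟩ := free_T hM hO hn ho
      obtain ⟨h2, h3, -, h4⟩ := h1 0
      have h5 := h _ h2 h4
      refine h3 ⟨N 0, h5, Homeomorph.refl _, ?_⟩
      obtain ⟨p, hp⟩ := h2.univ
      exact ⟨p ⟨e0, e0_ne_level⟩, fun x _ =>
        (Diffeomorph.refl (𝓡 4) (N 0).carrier ∞).isLocalDiffeomorph x⟩
    · have hg1 : PD 1 (show E4 ≃ₜ E4 from g) := mem_groupD.1 hg
      have h0 : PD (-1) (show E4 ≃ₜ E4 from g * rho) := hg1.mul_pos_neg hrho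
      obtain ⟨M, p, G, h1, h2⟩ := realise (h := g * rho) (mem_groupP.2 (Or.inr h0))
      have hGn : G ∉ grpD := by
        intro hG
        have h4 := grpD.mul_mem (grpD.inv_mem (derD_iff.1 h2).1) hG
        have h5 : (G * (g * rho)⁻¹)⁻¹ * G = g * rho := by group
        rw [h5] at h4
        exact PD_ne (mem_groupD.1 h4) h0
      have hG1 : PD (-1) (show E4 ≃ₜ E4 from G) := by
        rcases mem_groupP.1 h1.mem with h3 | h3
        · exact absurd (mem_groupD.2 h3) hGn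
        · exact h3
      have hchi : chi (show E4 ≃ₜ E4 from G) hG1 = pr (cls (show E4 ≃ₜ E4 from g) hg1) := by
        have e1 : chi (show E4 ≃ₜ E4 from G) hG1 = chi (show E4 ≃ₜ E4 from g * rho) h0 := by
          rw [chi_eq_iff h0 hG1, commutator_PP]
          have h3 : (show E4 ≃ₜ E4 from G * (g * rho)⁻¹) ∈ DX := by
            rw [← DD_comm]
            exact h2
          exact DX_le_CC h3
        have e2 : chi (show E4 ≃ₜ E4 from rho) hrho = 1 := by
          rw [chi_congr rho_eq hrho PD_TT, chi_TT]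
        rw [e1]
        have e3 := chi_mul hg1 hrho h0
        rw [e2, mul_one] at e3
        exact e3
      have hx : chi (show E4 ≃ₜ E4 from G) hG1 ^ n = 1 := by
        rw [hchi, ← mem_derP_pow hg1]
        exact hgn
      obtain ⟨X, hX⟩ := exists_twisted
      have hX' : TwistedProduct X := twistedProduct_iff.2 hX
      have hT : InT M := inT_of_offPoint hX' ((almost_neg hX').2 ⟨p, G, h1, hGn⟩)
      have hC : CoverStdT n M := by
        intro m N q hnm hm hN hq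
        obtain ⟨p', h3, -⟩ := cover_final h1 hm hN hq
        refine ⟨fun he => ?_, fun hod => ?_⟩
        · refine (std_iff (orbit_eq.1 h3) (hG1.pow_even he)).2 (Ext_of_chi_pow hG1 hx ?_)
          exact (Nat.Coprime.mul_dvd_of_dvd_of_dvd
            (Nat.coprime_two_left.2 ho) he.two_dvd hnm)
        · refine twistedProduct_iff.2 ((twisted_iff (orbit_eq.1 h3) (hG1.pow_odd hod)).2 ?_)
          obtain ⟨k, rfl⟩ := hnm
          have e := chi_pow hG1 hod (hG1.pow_odd hod)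
          have e' : chi (show E4 ≃ₜ E4 from G) hG1 ^ (n * k) = 1 := by
            rw [pow_mul, hx, one_pow]
          exact e.trans e'
      have h7 := (twisted_iff (orbit_eq.1 h1) hG1).1 (twistedProduct_iff.1 (h M hT hC))
      rw [hchi] at h7
      exact (mem_derP hg1).2 h7
  · rintro ⟨hO, ht⟩ M hM hC
    obtain ⟨X, hX, hMX⟩ := hO M hM
    obtain ⟨p, G, h1, h2⟩ := (almost_neg hX).1 ((almost_off (Or.inr hX)).2 hMX)
    have hG1 : PD (-1) (show E4 ≃ₜ E4 from G) := by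
      rcases mem_groupP.1 h1.mem with h3 | h3
      · exact absurd (mem_groupD.2 h3) h2
      · exact h3
    obtain ⟨N, q, hN, hq⟩ := exists_power h1 hn0
    obtain ⟨p', h3, -⟩ := cover_final h1 hn0 hN hq
    have h4 := (twisted_iff (orbit_eq.1 h3) (hG1.pow_odd ho)).1
      (twistedProduct_iff.1 ((hC n N q dvd_rfl hn0 hN hq).2 ho))
    have h5 : chi (show E4 ≃ₜ E4 from G) hG1 ^ n = 1 := (chi_pow hG1 ho (hG1.pow_odd ho)).symm.trans h4
    have hg : PD 1 (show E4 ≃ₜ E4 from G * rho⁻¹) := hG1.mul_neg hrho.inv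
    have hchi : chi (show E4 ≃ₜ E4 from G) hG1 = pr (cls (show E4 ≃ₜ E4 from G * rho⁻¹) hg) := by
      have e2 : chi (show E4 ≃ₜ E4 from rho) hrho = 1 := by
        rw [chi_congr rho_eq hrho PD_TT, chi_TT]
      have e0 : (show E4 ≃ₜ E4 from G) = (show E4 ≃ₜ E4 from G * rho⁻¹) * (show E4 ≃ₜ E4 from rho) := by
        show (G : Homeo4) = G * rho⁻¹ * rho
        group
      have e3 := chi_mul hg hrho (hg.mul_pos_neg hrho)
      rw [e2, mul_one] at e3
      rw [chi_congr e0 hG1 (hg.mul_pos_neg hrho), e3]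
    rw [hchi, ← mem_derP_pow hg] at h5
    have h6 := ht (G * rho⁻¹) (mem_groupD.2 hg) h5
    have h7 := (mem_derP hg).1 h6
    rw [← hchi] at h7
    exact twistedProduct_iff.2 ((twisted_iff (orbit_eq.1 h1) hG1).2 h7)

end Pool.Agent.HopfFree
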